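import Pool.Agent.U154.TP.Dn

/-!
Moments of the number of changes in an annulus, up to constants, for all `u > 0`.
-/

set_option autoImplicit false

namespace Pool.Agent.U154.TP

open H974 Finset Pool.Agent.W819.EN Real MeasureTheory
open Pool.Agent.H863R2.NL (ET ET_const ET_le_ET ET_mono ET_anti int_changes changes ET_pow psi)
open Pool.Agent.U154.UT (ok2 T B ET_T mom_low moments Ex_cs Ex_le_sqrt ind_pow half_sum T_congr
  T_mono hyp_pow dec Cl ET_T')

theorem rpow_cmp {x y L a : ℝ} (hx : 0 < x) (hy : 0 < y) (hL : 0 < L) (h1 : x ≤ L * y)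
    (h2 : y ≤ L * x) : x ^ a ≤ L ^ |a| * y ^ a := by
  rcases le_total 0 a with h | h
  · rw [abs_of_nonneg h, ← mul_rpow hL.le hy.le]
    exact rpow_le_rpow hx.le h1 h
  · rw [abs_of_nonpos h]
    have h3 : y / L ≤ x := by
      rw [div_le_iff₀ hL]
      linarith
    have h4 := rpow_le_rpow_of_nonpos (by positivity) h3 h
    rw [div_rpow hy.le hL.le] at h4
    rw [rpow_neg hL.le]
    refine h4.trans (le_of_eq ?_)
    rw [div_eq_mul_inv, mul_comm]

theorem Psi_eq {u : ℝ} (hu : u ≤ 2) : Psi u = psi u := by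
  unfold Psi psi
  rw [max_eq_right (by linarith), Real.arcosh_zero]
  ring

theorem mom_all {u : ℝ} (hu : 0 < u) : ∃ c C : ℝ, 0 < c ∧ 0 < C ∧ ∀ n : ℕ, 1 ≤ n →
    c * (n : ℝ) ^ Psi u ≤ ET n (fun m => u ^ m) ∧ ET n (fun m => u ^ m) ≤ C * (n : ℝ) ^ Psi u := by
  rcases le_or_gt u 1 with h | h
  · rw [Psi_eq (by linarith)]
    exact ET_pow hu h
  · exact mom_two h

theorem U_loc {r R : ℕ} (hrR : r ≤ R) {S : Finset Edg} (hS : B R \ B (r - 1) ⊆ S) (g : ℕ → ℝ) :
    Ex P2 S (fun F => g (U r R F)) = Ex P2 (B R \ B (r - 1)) (fun F => g (U r R F)) := by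
  apply Ex_local hS
  intro F _
  rw [U_congr hrR (F := F) (F' := F ∩ (B R \ B (r - 1))) (fun e h1 h2 => by
    simp only [mem_inter, mem_sdiff]
    exact ⟨fun h3 => ⟨h3, h1, h2⟩, fun h3 => h3.1⟩)]

/-- the moment of the annulus -/
noncomputable def H (u : ℝ) (R r : ℕ) : ℝ := Ex P2 (B R) (fun F => u ^ U r R F)

theorem H_eq {u : ℝ} {r R : ℕ} (hrR : r ≤ R) {S : Finset Edg} (hS : B R \ B (r - 1) ⊆ S) :
    Ex P2 S (fun F => u ^ U r R F) = H u R r := by
  unfold H
  rw [U_loc hrR hS (fun m => u ^ m), U_loc hrR sdiff_subset (fun m => u ^ m)]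

theorem T_loc {R : ℕ} {S : Finset Edg} (hS : B R ⊆ S) (g : ℕ → ℝ) :
    Ex P2 S (fun F => g (T R F)) = ET R g := by
  rw [ET_T]
  apply Ex_local hS
  intro F _
  rw [T_congr (F := F) (F' := F ∩ B R) (fun e he => by
    rw [mem_inter]
    exact ⟨fun h1 => ⟨h1, he⟩, fun h1 => h1.1⟩)]

/-- independence -/
theorem TU {u : ℝ} {q r R : ℕ} (hq : q < r) (hrR : r ≤ R) {S : Finset Edg} (hS : B R ⊆ S) :
    Ex P2 S (fun F => u ^ T q F * u ^ U r R F) = ET q (fun m => u ^ m) * H u R r := by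
  have hBq : B q ⊆ S := (B_mono (by omega)).trans hS
  rw [← H_eq hrR (sdiff_subset.trans hS), ← T_loc hBq (fun m => u ^ m)]
  refine Ex_mul_indep (S := B q) (T := B R \ B (r - 1)) hBq (sdiff_subset.trans hS) ?_ ?_ ?_
  · rw [Finset.disjoint_left]
    intro e he he'
    exact (mem_sdiff.1 he').2 (B_mono (by omega) he)
  · intro F _
    rw [T_congr (F := F) (F' := F ∩ B q) (fun e he => by
      rw [mem_inter]
      exact ⟨fun h1 => ⟨h1, he⟩, fun h1 => h1.1⟩)]
  · intro F _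
    rw [U_congr hrR (F := F) (F' := F ∩ (B R \ B (r - 1))) (fun e h1 h2 => by
      simp only [mem_inter, mem_sdiff]
      exact ⟨fun h3 => ⟨h3, h1, h2⟩, fun h3 => h3.1⟩)]

theorem T_super {q r R : ℕ} (hq : q < r) (hrR : r ≤ R) (F : Finset Edg) :
    T q F + U r R F ≤ T R F := geo.super F (0, 0) 0 q r R (Nat.zero_le _) hq hrR

theorem U_anti {r r' R : ℕ} (h : r ≤ r') (F : Finset Edg) : U r' R F ≤ U r R F :=
  geo.mono F (0, 0) r' r R R h le_rfl

theorem H_pos {u : ℝ} (hu : 0 < u) (R r : ℕ) : 0 < H u R r := by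
  have h1 : ∀ F : Finset Edg, min 1 (u ^ (2 * R)) ≤ u ^ U r R F := by
    intro F
    have h2 : U r R F ≤ 2 * R := geo.le F (0, 0) r R
    rcases le_total 1 u with h | h
    · exact (min_le_left _ _).trans (one_le_pow₀ h)
    · exact (min_le_right _ _).trans (pow_le_pow_of_le_one hu.le h h2)
  have h3 : min 1 (u ^ (2 * R)) ≤ H u R r := by
    unfold H
    rw [← Ex_const P2 (B R) (min 1 (u ^ (2 * R)))]
    exact Ex_mono ok2 fun F _ => h1 F
  exact lt_of_lt_of_le (lt_min one_pos (by positivity)) h3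

/-- lower bound for `u ≤ 1` -/
theorem H_low {u : ℝ} (hu : 0 < u) (hu1 : u ≤ 1) : ∃ c : ℝ, 0 < c ∧ ∀ r R : ℕ, 1 ≤ r → r ≤ R →
    c * ((R:ℝ) / r) ^ Psi u ≤ H u R r := by
  obtain ⟨c0, C0, hc0, hC0, h⟩ := mom_all hu
  refine ⟨min c0 (c0 / (C0 * 2 ^ |Psi u|)), by positivity, ?_⟩
  intro r R hr hrR
  have hrR' : (r:ℝ) ≤ R := by exact_mod_cast hrR
  have hr1 : (1:ℝ) ≤ r := by exact_mod_cast hr
  have hrp : (0:ℝ) < r := by linarith
  have hRp : (0:ℝ) < R := by linarith
  have hH := H_pos hu R r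
  have k1 := (h R (by omega)).1
  have k2 : ET R (fun m => u ^ m) ≤ ET (r - 1) (fun m => u ^ m) * H u R r := by
    rw [← TU (q := r - 1) (by omega) hrR (le_refl (B R)), ET_T]
    apply Ex_mono ok2
    intro F _
    rw [← pow_add]
    exact pow_le_pow_of_le_one hu.le hu1 (T_super (by omega) hrR F)
  have k4 : ET (r - 1) (fun m => u ^ m) ≤ max 1 (C0 * 2 ^ |Psi u|) * (r:ℝ) ^ Psi u ∨ r = 1 := by
    rcases Nat.lt_or_ge r 2 with h2 | h2
    · right; omega
    · left
      have i1 := (h (r - 1) (by omega)).2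
      have c2 : ((r - 1 : ℕ) : ℝ) = (r:ℝ) - 1 := by
        rw [Nat.cast_sub hr]
        simp
      have c3 : (2:ℝ) ≤ r := by exact_mod_cast h2
      have i2 : ((r - 1 : ℕ) : ℝ) ^ Psi u ≤ 2 ^ |Psi u| * (r:ℝ) ^ Psi u := by
        apply rpow_cmp _ hrp (by norm_num)
        · rw [c2]; linarith
        · rw [c2]; linarith
        · rw [c2]; linarith
      refine i1.trans ?_
      calc C0 * ((r - 1 : ℕ) : ℝ) ^ Psi u ≤ C0 * (2 ^ |Psi u| * (r:ℝ) ^ Psi u) :=
            mul_le_mul_of_nonneg_left i2 hC0.le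
        _ = C0 * 2 ^ |Psi u| * (r:ℝ) ^ Psi u := by ring
        _ ≤ _ := mul_le_mul_of_nonneg_right (le_max_right _ _) (by positivity)
  rcases Nat.lt_or_ge r 2 with h2 | h2
  · have hr' : r = 1 := by omega
    have k3 : ET (r - 1) (fun m => u ^ m) ≤ 1 := by
      rw [← ET_const (r - 1) 1]
      exact ET_le_ET fun m => pow_le_one₀ hu.le hu1
    have k5 : ET (r - 1) (fun m => u ^ m) * H u R r ≤ 1 * H u R r :=
      mul_le_mul_of_nonneg_right k3 hH.le
    have k6 : (R:ℝ) ^ Psi u = ((R:ℝ) / r) ^ Psi u := by rw [hr']; simp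
    rw [← k6]
    have k7 : min c0 (c0 / (C0 * 2 ^ |Psi u|)) * (R:ℝ) ^ Psi u ≤ c0 * (R:ℝ) ^ Psi u :=
      mul_le_mul_of_nonneg_right (min_le_left _ _) (by positivity)
    linarith
  · have i1 := (h (r - 1) (by omega)).2
    have c2 : ((r - 1 : ℕ) : ℝ) = (r:ℝ) - 1 := by
      rw [Nat.cast_sub hr]
      simp
    have c3 : (2:ℝ) ≤ r := by exact_mod_cast h2
    have i2 : ((r - 1 : ℕ) : ℝ) ^ Psi u ≤ 2 ^ |Psi u| * (r:ℝ) ^ Psi u := by
      apply rpow_cmp _ hrp (by norm_num)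
      · rw [c2]; linarith
      · rw [c2]; linarith
      · rw [c2]; linarith
    have i3 : ET (r - 1) (fun m => u ^ m) ≤ C0 * 2 ^ |Psi u| * (r:ℝ) ^ Psi u := by
      refine i1.trans ?_
      calc C0 * ((r - 1 : ℕ) : ℝ) ^ Psi u ≤ C0 * (2 ^ |Psi u| * (r:ℝ) ^ Psi u) :=
            mul_le_mul_of_nonneg_left i2 hC0.le
        _ = _ := by ring
    have i4 : c0 * (R:ℝ) ^ Psi u ≤ C0 * 2 ^ |Psi u| * (r:ℝ) ^ Psi u * H u R r :=
      (k1.trans k2).trans (mul_le_mul_of_nonneg_right i3 hH.le)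
    have i5 : c0 / (C0 * 2 ^ |Psi u|) * ((R:ℝ) / r) ^ Psi u ≤ H u R r := by
      rw [div_rpow hRp.le hrp.le]
      have e6 : c0 / (C0 * 2 ^ |Psi u|) * ((R:ℝ) ^ Psi u / (r:ℝ) ^ Psi u) =
          (c0 * (R:ℝ) ^ Psi u) / (C0 * 2 ^ |Psi u| * (r:ℝ) ^ Psi u) := by field_simp
      rw [e6, div_le_iff₀ (by positivity)]
      linarith
    refine le_trans ?_ i5
    exact mul_le_mul_of_nonneg_right (min_le_right _ _) (by positivity)

/-- the tail of a link, in the edges of its annulus -/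
theorem lnk_ex {C ρ : ℝ} {c k : ℕ} (hc : 1 ≤ c)
    (htail : ∀ (b : ℕ) (v : Vtx) (S : Finset Edg), 1 ≤ b → bx v (8 * b) ⊆ S → ∀ k : ℕ,
      Ex P2 S (fun F => ind (¬ Lnk v b k F)) ≤ C * ρ ^ k) {S : Finset Edg}
    (hS : B (8 * (c:ℤ)) \ B ((c:ℤ) - 1) ⊆ S) :
    Ex P2 S (fun F => ind (¬ Lnk (0, 0) c k F)) ≤ C * ρ ^ k := by
  have e1 : ∀ S' : Finset Edg, B (8 * (c:ℤ)) \ B ((c:ℤ) - 1) ⊆ S' →
      Ex P2 S' (fun F => ind (¬ Lnk (0, 0) c k F)) =
      Ex P2 (B (8 * (c:ℤ)) \ B ((c:ℤ) - 1)) (fun F => ind (¬ Lnk (0, 0) c k F)) := by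
    intro S' hS'
    apply Ex_local hS'
    intro F _
    apply ind_congr
    apply not_congr
    apply lnk_congr hc
    intro e h1 h2
    simp only [mem_inter, mem_sdiff]
    exact ⟨fun h3 => ⟨h3, h1, h2⟩, fun h3 => h3.1⟩
  rw [e1 S hS, ← e1 (B (8 * (c:ℤ))) sdiff_subset]
  exact htail c (0, 0) _ hc le_rfl k

/-- the ratio of the moments at comparable scales, `u ≤ 1` -/
theorem ratio {u : ℝ} (hu : 0 < u) (hu1 : u ≤ 1) : ∃ M : ℝ, 1 ≤ M ∧ ∀ R r : ℕ, 1 ≤ r →
    4 * r ≤ R → H u R (4 * r) ≤ M * H u R r := by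
  obtain ⟨c, hc, hlow⟩ := H_low hu hu1
  obtain ⟨s, hs⟩ : ∃ s : ℝ, s = u ^ 20 / 2 := ⟨_, rfl⟩
  have hs0 : 0 < s := by rw [hs]; positivity
  obtain ⟨C, hC, htail⟩ := lnk_tail (ρ := s ^ 2) (by positivity)
  obtain ⟨b0, hb0⟩ : ∃ b0 : ℝ, b0 = 1 + 1 / (c * 16 ^ (-|Psi u|)) := ⟨_, rfl⟩
  have hb0p : 1 ≤ b0 := by rw [hb0]; have : 0 ≤ 1 / (c * 16 ^ (-|Psi u|)) := by positivity
                           linarith
  obtain ⟨κ, hκ⟩ : ∃ κ : ℕ, √C * (b0 + 2 * (u⁻¹) ^ 4) * (1 / 2) ^ κ ≤ 1 / 2 := by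
    have h1 : 0 < 1 / (2 * (√C * (b0 + 2 * (u⁻¹) ^ 4) + 1)) := by positivity
    obtain ⟨κ, hκ⟩ := exists_pow_lt_of_lt_one h1 (show (1 / 2 : ℝ) < 1 by norm_num)
    refine ⟨κ, ?_⟩
    have h2 : (1 / 2 : ℝ) ^ κ * (2 * (√C * (b0 + 2 * (u⁻¹) ^ 4) + 1)) ≤ 1 := by
      have := (lt_div_iff₀ (by positivity)).1 hκ
      linarith
    have h3 : 0 ≤ (1 / 2 : ℝ) ^ κ := by positivity
    linarith
  obtain ⟨D, hD⟩ : ∃ D : ℝ, D = (u⁻¹) ^ (4 + 20 * κ) := ⟨_, rfl⟩
  have hD0 : 0 < D := by rw [hD]; positivity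
  obtain ⟨M, hM⟩ : ∃ M : ℝ, M = b0 + 2 * D := ⟨_, rfl⟩
  have hM1 : 1 ≤ M := by rw [hM]; linarith
  have hMε : M * (√C * s ^ κ) ≤ 1 / 2 := by
    have e1 : s ^ κ ≤ (1 / 2) ^ κ := by
      apply pow_le_pow_left₀ hs0.le
      rw [hs]
      have : u ^ 20 ≤ 1 := pow_le_one₀ hu.le hu1
      linarith
    have e2 : D * s ^ κ = (u⁻¹) ^ 4 * (1 / 2) ^ κ := by
      rw [hD, hs, pow_add, pow_mul, mul_assoc, ← mul_pow]
      congr 2
      rw [inv_pow]
      field_simp
    have e3 : M * (√C * s ^ κ) = √C * (b0 * s ^ κ + 2 * (D * s ^ κ)) := by rw [hM]; ring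
    rw [e3, e2]
    refine le_trans ?_ hκ
    have e4 : √C * (b0 + 2 * (u⁻¹) ^ 4) * (1 / 2) ^ κ =
        √C * (b0 * (1 / 2) ^ κ + 2 * ((u⁻¹) ^ 4 * (1 / 2) ^ κ)) := by ring
    rw [e4]
    apply mul_le_mul_of_nonneg_left _ (Real.sqrt_nonneg _)
    have := mul_le_mul_of_nonneg_left e1 (by linarith : 0 ≤ b0)
    linarith
  refine ⟨M, hM1, ?_⟩
  intro R
  have main : ∀ d r : ℕ, 1 ≤ r → 4 * r ≤ R → R - r = d → H u R (4 * r) ≤ M * H u R r := by
    intro d
    induction d using Nat.strong_induction_on with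
    | _ d ih =>
      intro r hr hrR hd
      have hH1 := H_pos hu R r
      have hH4 := H_pos hu R (4 * r)
      have hr1 : (1:ℝ) ≤ r := by exact_mod_cast hr
      have hrp : (0:ℝ) < r := by linarith
      rcases Nat.lt_or_ge R (16 * r) with hs' | hs'
      · -- base case
        have k1 := hlow r R hr (by omega)
        have k2 : (16:ℝ) ^ (-|Psi u|) ≤ ((R:ℝ) / r) ^ Psi u := by
          have hRr : (R:ℝ) ≤ 16 * r := by exact_mod_cast hs'.le
          have hRr2 : (r:ℝ) ≤ R := by exact_mod_cast (by omega : r ≤ R)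
          have hRp : (0:ℝ) < R := by linarith
          have k3 := rpow_cmp (x := 1) (y := (R:ℝ) / r) (L := 16) (a := Psi u) one_pos
            (by positivity) (by norm_num)
            (by
              have : 1 ≤ (R:ℝ) / r := by rw [one_le_div hrp]; exact hRr2
              linarith)
            (by
              rw [div_le_iff₀ hrp]
              linarith)
          rw [one_rpow] at k3
          rw [rpow_neg (by norm_num), inv_le_iff_one_le_mul₀' (by positivity)]
          exact k3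
        have k4 : H u R (4 * r) ≤ 1 := by
          unfold H
          rw [← Ex_const P2 (B R) 1]
          exact Ex_mono ok2 fun F _ => pow_le_one₀ hu.le hu1
        have k5 : c * 16 ^ (-|Psi u|) ≤ H u R r := (mul_le_mul_of_nonneg_left k2 hc.le).trans k1
        have k6 : 1 ≤ 1 / (c * 16 ^ (-|Psi u|)) * H u R r := by
          rw [div_mul_eq_mul_div, one_mul, one_le_div (by positivity)]
          exact k5
        have k7 : 1 / (c * 16 ^ (-|Psi u|)) ≤ M := by
          rw [hM, hb0]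
          linarith
        exact (k4.trans k6).trans (mul_le_mul_of_nonneg_right k7 hH1.le)
      · -- the step
        have ih4 := ih (R - 4 * r) (by omega) (4 * r) (by omega) (by omega) rfl
        have hdn : Dn (B R) (fun F => u ^ U (4 * r) R F) (B R \ B (8 * (r:ℤ)))
            (Ex P2 (B R) (fun F => u ^ U (8 * r + 1) R F)) := by
          apply Dn.of_le (A := B R \ B (8 * (r:ℤ)))
          · intro F
            exact pow_le_pow_of_le_one hu.le hu1 (U_anti (by omega) F)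
          · intro F
            positivity
          · exact sdiff_subset
          · exact le_rfl
          · intro F
            rw [U_congr (by omega) (F := F) (F' := F ∩ (B R \ B (8 * (r:ℤ)))) (fun e h1 h2 => by
              have e8 : (((8 * r + 1 : ℕ) : ℤ) - 1) = 8 * (r:ℤ) := by push_cast; ring
              rw [e8] at h2
              simp only [mem_inter, mem_sdiff]
              exact ⟨fun h3 => ⟨h3, h1, h2⟩, fun h3 => h3.1⟩)]
        have k1 := LB (g := fun F => u ^ U r R F) (D := D) (Q := fun F => Lnk (0, 0) r κ F)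
          (fun F => by positivity) (fun F => by positivity) hD0.le hdn
          (fun F F' hFF => by
            apply lnk_congr hr
            intro e he _
            have h2 := Finset.ext_iff.1 hFF e
            simp only [mem_sdiff] at h2
            have he2 : e ∈ B (8 * (r:ℤ)) := he
            have h3 : ¬ (e ∈ B R ∧ e ∉ B (8 * (r:ℤ))) := fun h => h.2 he2
            constructor
            · intro h4
              exact (h2.1 ⟨h4, h3⟩).1
            · intro h4
              exact (h2.2 ⟨h4, h3⟩).1)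
          (fun F hF => by
            have h1 : U r R F ≤ U (4 * r) R F + (4 + 20 * κ) := out_bound hr (by omega) hF
            have h2 : u ^ (U (4 * r) R F + (4 + 20 * κ)) ≤ u ^ U r R F :=
              pow_le_pow_of_le_one hu.le hu1 h1
            have h3 : D * u ^ (U (4 * r) R F + (4 + 20 * κ)) = u ^ U (4 * r) R F := by
              rw [hD, pow_add u (U (4 * r) R F), inv_pow, mul_comm (u ^ U (4 * r) R F), ← mul_assoc,
                inv_mul_cancel₀ (by positivity), one_mul]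
            rw [← h3]
            exact mul_le_mul_of_nonneg_left h2 hD0.le)
        have k2 : √(Ex P2 (B R) (fun F => ind (¬ Lnk (0, 0) r κ F))) ≤ √C * s ^ κ := by
          have hS : B (8 * (r:ℤ)) \ B ((r:ℤ) - 1) ⊆ B R :=
            sdiff_subset.trans (B_mono (by omega))
          have := Real.sqrt_le_sqrt (lnk_ex (k := κ) hr htail hS)
          rwa [Real.sqrt_mul hC.le, ← pow_mul, mul_comm 2 κ, pow_mul, Real.sqrt_sq (by positivity)]
            at this
        have k3 : Ex P2 (B R) (fun F => u ^ U (8 * r + 1) R F) ≤ H u R (4 * (4 * r)) := by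
          unfold H
          apply Ex_mono ok2
          intro F _
          exact pow_le_pow_of_le_one hu.le hu1 (U_anti (by omega) F)
        have k4 : Ex P2 (B R) (fun F => u ^ U (8 * r + 1) R F) *
            √(Ex P2 (B R) (fun F => ind (¬ Lnk (0, 0) r κ F))) ≤ 1 / 2 * H u R (4 * r) := by
          calc _ ≤ (M * H u R (4 * r)) * (√C * s ^ κ) :=
                mul_le_mul (k3.trans ih4) k2 (Real.sqrt_nonneg _) (by positivity)
            _ = (M * (√C * s ^ κ)) * H u R (4 * r) := by ring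
            _ ≤ _ := mul_le_mul_of_nonneg_right hMε hH4.le
        have k5 : Ex P2 (B R) (fun F => u ^ U (4 * r) R F) = H u R (4 * r) := rfl
        have k6 : Ex P2 (B R) (fun F => u ^ U r R F) = H u R r := rfl
        rw [k5, k6] at k1
        have k7 : H u R (4 * r) ≤ 2 * D * H u R r := by linarith
        refine k7.trans (mul_le_mul_of_nonneg_right ?_ hH1.le)
        rw [hM]
        linarith
  intro r hr hrR
  exact main (R - r) r hr hrR rfl

end Pool.Agent.U154.TP
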