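import Pool.Agent.U154.TP.Am

/-!
Moments of the number of changes in an annulus, up to constants, for all `u > 0`.
-/

set_option autoImplicit false

namespace Pool.Agent.U154.TP

open H974 Finset Pool.Agent.W819.EN Real MeasureTheory
open Pool.Agent.H863R2.NL (ET ET_const ET_le_ET ET_mono ET_anti)
open Pool.Agent.U154.UT (ok2 T B ET_T Ex_cs Ex_le_sqrt ind_pow half_sum T_congr
  T_mono T_le hyp_pow dec Cl)

theorem ET_zero {u : ℝ} : ET 0 (fun m => u ^ m) = 1 := by
  rw [ET_T]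
  have h : ∀ F, F ⊆ B ((0:ℕ):ℤ) → u ^ T 0 F = 1 := by
    intro F _
    have h1 : T 0 F = 0 := by
      have := T_le 0 F
      omega
    rw [h1, pow_zero]
  rw [Ex_congr h, Ex_const]

theorem ET_pred {u : ℝ} (hu : 0 < u) : ∃ C : ℝ, 0 < C ∧ ∀ b : ℕ, 1 ≤ b →
    ET (b - 1) (fun m => u ^ m) ≤ C * (b:ℝ) ^ Psi u := by
  obtain ⟨c0, C0, hc0, hC0, h⟩ := mom_all hu
  refine ⟨1 + C0 * 2 ^ |Psi u|, by positivity, fun b hb => ?_⟩
  rcases Nat.lt_or_ge b 2 with h2 | h2
  · have hb' : b = 1 := by omega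
    rw [hb', Nat.sub_self, ET_zero, Nat.cast_one, one_rpow]
    have : 0 ≤ C0 * 2 ^ |Psi u| := by positivity
    linarith
  · have i1 := (h (b - 1) (by omega)).2
    have c2 : ((b - 1 : ℕ) : ℝ) = (b:ℝ) - 1 := by
      rw [Nat.cast_sub hb]
      simp
    have c3 : (2:ℝ) ≤ b := by exact_mod_cast h2
    have hbp : (0:ℝ) < b := by linarith
    have i2 : ((b - 1 : ℕ) : ℝ) ^ Psi u ≤ 2 ^ |Psi u| * (b:ℝ) ^ Psi u := by
      apply rpow_cmp _ hbp (by norm_num)
      · rw [c2]; linarith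
      · rw [c2]; linarith
      · rw [c2]; linarith
    refine i1.trans ?_
    calc C0 * ((b - 1 : ℕ) : ℝ) ^ Psi u ≤ C0 * (2 ^ |Psi u| * (b:ℝ) ^ Psi u) :=
          mul_le_mul_of_nonneg_left i2 hC0.le
      _ = C0 * 2 ^ |Psi u| * (b:ℝ) ^ Psi u := by ring
      _ ≤ _ := mul_le_mul_of_nonneg_right (by linarith) (by positivity)

/-- decoupling for the box -/
theorem Dn_in {u : ℝ} (hu : 0 < u) : ∃ K : ℝ, 0 < K ∧ ∀ (b : ℕ) (S : Finset Edg), 1 ≤ b →
    B (2 * b + 8) ⊆ S → Dn S (fun F => u ^ T (2 * b) F) (B ((b:ℤ) - 1)) (K * (b:ℝ) ^ Psi u) := by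
  rcases le_or_gt u 1 with h1 | h1
  · obtain ⟨C, hC, hp⟩ := ET_pred hu
    refine ⟨C, hC, fun b S hb hS => ?_⟩
    have hBS : B ((b - 1 : ℕ) : ℤ) ⊆ S := (B_mono (by omega)).trans hS
    have k := Dn.of_le (S := S) (A := B ((b - 1 : ℕ) : ℤ)) (I := B ((b:ℤ) - 1))
      (f := fun F => u ^ T (2 * b) F) (g := fun F => u ^ T (b - 1) F)
      (fun F => pow_le_pow_of_le_one hu.le h1 (T_mono (by omega) F))
      (fun F => by positivity) hBS (B_mono (by omega)) (fun F => by
        rw [T_congr (F := F) (F' := F ∩ B ((b - 1 : ℕ) : ℤ)) (fun e he => by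
          rw [mem_inter]
          exact ⟨fun h1 => ⟨h1, he⟩, fun h1 => h1.1⟩)])
    refine k.mono (le_refl _) ?_
    rw [T_loc hBS (fun m => u ^ m)]
    exact hp b hb
  · obtain ⟨c0, C0, hc0, hC0, h⟩ := mom_all hu
    obtain ⟨K, hK, hd⟩ := dec h1.le
    refine ⟨K * (C0 * 2 ^ |Psi u|), by positivity, fun b S hb hS φ h0 hφ => ?_⟩
    have k := hd _ _ (hyp_pow h1.le) b hb S hS φ h0 hφ 0
    simp only [add_zero, pow_zero, one_mul] at k
    refine k.trans ?_
    apply mul_le_mul_of_nonneg_right _ (Real.sqrt_nonneg _)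
    rw [mul_assoc]
    apply mul_le_mul_of_nonneg_left _ hK.le
    refine (h (2 * b) (by omega)).2.trans ?_
    rw [mul_assoc]
    apply mul_le_mul_of_nonneg_left _ hC0.le
    have hb1 : (1:ℝ) ≤ b := by exact_mod_cast hb
    apply rpow_cmp (by positivity) (by positivity) (by norm_num)
    · push_cast; linarith
    · push_cast; linarith

/-- upper bound for `u ≤ 1` -/
theorem H_up1 {u : ℝ} (hu : 0 < u) (hu1 : u ≤ 1) : ∃ K : ℝ, 0 < K ∧ ∀ r R : ℕ, 1 ≤ r → r ≤ R →
    H u R r ≤ K * ((R:ℝ) / r) ^ Psi u := by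
  obtain ⟨M, hM, hrat⟩ := ratio hu hu1
  obtain ⟨c0, C0, hc0, hC0, h⟩ := mom_all hu
  obtain ⟨C1, hC1, hpred⟩ := ET_pred hu
  obtain ⟨C, hC, htail⟩ := lnk_tail (ρ := (1 / 2) ^ 2) (by positivity)
  obtain ⟨M1, hM1⟩ : ∃ M1 : ℝ, M1 = C1 * 2 ^ |Psi u| / c0 := ⟨_, rfl⟩
  have hM1p : 0 < M1 := by rw [hM1]; positivity
  obtain ⟨κ, hκ⟩ : ∃ κ : ℕ, √C * (M1 * M) * (1 / 2) ^ κ ≤ 1 / 2 := by
    have h1 : 0 < 1 / (2 * (√C * (M1 * M) + 1)) := by positivity
    obtain ⟨κ, hκ⟩ := exists_pow_lt_of_lt_one h1 (show (1 / 2 : ℝ) < 1 by norm_num)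
    refine ⟨κ, ?_⟩
    have h2 : (1 / 2 : ℝ) ^ κ * (2 * (√C * (M1 * M) + 1)) ≤ 1 := by
      have := (lt_div_iff₀ (by positivity)).1 hκ
      linarith
    have h3 : 0 ≤ (1 / 2 : ℝ) ^ κ := by positivity
    linarith
  obtain ⟨D, hD⟩ : ∃ D : ℝ, D = (u⁻¹) ^ (4 + 18 * κ) := ⟨_, rfl⟩
  have hD0 : 0 < D := by rw [hD]; positivity
  -- the case of the scales `4 b`
  have main : ∀ b R : ℕ, 1 ≤ b → 16 * b ≤ R →
      H u R (4 * b) ≤ 2 * D * C0 / c0 * ((R:ℝ) / (2 * b)) ^ Psi u := by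
    intro b R hb hR
    have hb1 : (1:ℝ) ≤ b := by exact_mod_cast hb
    have hbp : (0:ℝ) < b := by linarith
    have hRp : (0:ℝ) < R := by exact_mod_cast (by omega : 0 < R)
    obtain ⟨A, hA⟩ : ∃ A, A = B ((b:ℤ) - 1) ∪ (B R \ B (8 * (b:ℤ))) := ⟨_, rfl⟩
    have hAR : A ⊆ B R := by
      rw [hA]
      exact Finset.union_subset (B_mono (by omega)) sdiff_subset
    have hdn := Dn.of_le (S := B R) (A := A) (I := A)
      (f := fun F => u ^ T (2 * b) F * u ^ U (4 * b) R F)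
      (g := fun F => u ^ T (b - 1) F * u ^ U (8 * b + 1) R F)
      (fun F => by
        apply mul_le_mul
        · exact pow_le_pow_of_le_one hu.le hu1 (T_mono (by omega) F)
        · exact pow_le_pow_of_le_one hu.le hu1 (U_anti (by omega) F)
        · positivity
        · positivity)
      (fun F => by positivity) hAR le_rfl (fun F => by
        rw [T_congr (F := F) (F' := F ∩ A) (fun e he => by
            have he2 : e ∈ A := by
              rw [hA, mem_union]
              left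
              exact B_mono (by omega) he
            rw [mem_inter]
            exact ⟨fun h1 => ⟨h1, he2⟩, fun h1 => h1.1⟩),
          U_congr (by omega) (F := F) (F' := F ∩ A) (fun e h1 h2 => by
            have he2 : e ∈ A := by
              rw [hA, mem_union]
              right
              rw [mem_sdiff]
              refine ⟨h1, fun h3 => h2 ?_⟩
              exact B_mono (by push_cast; omega) h3
            rw [mem_inter]
            exact ⟨fun h1 => ⟨h1, he2⟩, fun h1 => h1.1⟩)])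
    have k1 := LB (g := fun F => u ^ T R F) (D := D) (Q := fun F => Lnk (0, 0) b κ F)
      (fun F => by positivity) (fun F => by positivity) hD0.le hdn
      (fun F F' hFF => by
        apply lnk_congr hb
        intro e he he1
        have h2 := Finset.ext_iff.1 hFF e
        rw [hA] at h2
        simp only [mem_sdiff, mem_union] at h2
        have he2 : e ∈ B (8 * (b:ℤ)) := he
        have he3 : e ∉ B ((b:ℤ) - 1) := he1
        have h3 : ¬ (e ∈ B ((b:ℤ) - 1) ∨ (e ∈ B R ∧ e ∉ B (8 * (b:ℤ)))) := by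
          rintro (h | h)
          · exact he3 h
          · exact h.2 he2
        constructor
        · intro h4
          exact (h2.1 ⟨h4, h3⟩).1
        · intro h4
          exact (h2.2 ⟨h4, h3⟩).1)
      (fun F hF => by
        have h1 : T R F ≤ T (2 * b) F + U (4 * b) R F + (4 + 18 * κ) :=
          in_bound hb (by omega) hF
        have h2 : u ^ (T (2 * b) F + U (4 * b) R F + (4 + 18 * κ)) ≤ u ^ T R F :=
          pow_le_pow_of_le_one hu.le hu1 h1
        have h3 : D * u ^ (T (2 * b) F + U (4 * b) R F + (4 + 18 * κ)) =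
            u ^ T (2 * b) F * u ^ U (4 * b) R F := by
          rw [hD, pow_add u (T (2 * b) F + U (4 * b) R F), inv_pow,
            mul_comm (u ^ (T (2 * b) F + U (4 * b) R F)), ← mul_assoc,
            inv_mul_cancel₀ (by positivity), one_mul, pow_add]
        rw [← h3]
        exact mul_le_mul_of_nonneg_left h2 hD0.le)
    rw [TU (by omega) (by omega) le_rfl, TU (by omega) (by omega) le_rfl] at k1
    have k2 : √(Ex P2 (B R) (fun F => ind (¬ Lnk (0, 0) b κ F))) ≤ √C * (1 / 2) ^ κ := by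
      have hS : B (8 * (b:ℤ)) \ B ((b:ℤ) - 1) ⊆ B R :=
        sdiff_subset.trans (B_mono (by omega))
      have := Real.sqrt_le_sqrt (lnk_ex (k := κ) hb htail hS)
      rwa [Real.sqrt_mul hC.le, ← pow_mul, mul_comm 2 κ, pow_mul, Real.sqrt_sq (by positivity)]
        at this
    have hH4 := H_pos hu R (4 * b)
    have hE2 : 0 < ET (2 * b) (fun m => u ^ m) :=
      lt_of_lt_of_le (by positivity) (h (2 * b) (by omega)).1
    have k3 : ET (b - 1) (fun m => u ^ m) ≤ M1 * ET (2 * b) (fun m => u ^ m) := by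
      refine (hpred b hb).trans ?_
      have i1 := (h (2 * b) (by omega)).1
      have i2 : (b:ℝ) ^ Psi u ≤ 2 ^ |Psi u| * ((2 * b : ℕ) : ℝ) ^ Psi u := by
        apply rpow_cmp hbp (by positivity) (by norm_num)
        · push_cast; linarith
        · push_cast; linarith
      have i3 : C1 * (b:ℝ) ^ Psi u ≤ M1 * (c0 * ((2 * b : ℕ) : ℝ) ^ Psi u) := by
        have e1 : M1 * (c0 * ((2 * b : ℕ) : ℝ) ^ Psi u) =
            C1 * (2 ^ |Psi u| * ((2 * b : ℕ) : ℝ) ^ Psi u) := by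
          rw [hM1]
          field_simp
        rw [e1]
        exact mul_le_mul_of_nonneg_left i2 hC1.le
      exact i3.trans (mul_le_mul_of_nonneg_left i1 hM1p.le)
    have k4 : H u R (8 * b + 1) ≤ M * H u R (4 * b) := by
      refine le_trans ?_ (hrat R (4 * b) (by omega) (by omega))
      unfold H
      apply Ex_mono ok2
      intro F _
      exact pow_le_pow_of_le_one hu.le hu1 (U_anti (by omega) F)
    have hH8 := H_pos hu R (8 * b + 1)
    have hEp : 0 ≤ ET (b - 1) (fun m => u ^ m) := by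
      rw [ET_T]
      exact Ex_nonneg ok2 fun F _ => by positivity
    have k5 : ET (b - 1) (fun m => u ^ m) * H u R (8 * b + 1) *
        √(Ex P2 (B R) (fun F => ind (¬ Lnk (0, 0) b κ F))) ≤
        1 / 2 * (ET (2 * b) (fun m => u ^ m) * H u R (4 * b)) := by
      calc _ ≤ ((M1 * ET (2 * b) (fun m => u ^ m)) * (M * H u R (4 * b))) *
            (√C * (1 / 2) ^ κ) :=
            mul_le_mul (mul_le_mul k3 k4 hH8.le (by positivity)) k2 (Real.sqrt_nonneg _)
              (by positivity)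
        _ = (√C * (M1 * M) * (1 / 2) ^ κ) * (ET (2 * b) (fun m => u ^ m) * H u R (4 * b)) := by
            ring
        _ ≤ _ := mul_le_mul_of_nonneg_right hκ (by positivity)
    have k6 : Ex P2 (B R) (fun F => u ^ T R F) = ET R (fun m => u ^ m) :=
      T_loc le_rfl (fun m => u ^ m)
    rw [k6] at k1
    have k7 : ET (2 * b) (fun m => u ^ m) * H u R (4 * b) ≤ 2 * D * (C0 * (R:ℝ) ^ Psi u) := by
      have i1 := mul_le_mul_of_nonneg_left (h R (by omega)).2 hD0.le
      linarith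
    have k8 : c0 * ((2 * b : ℕ) : ℝ) ^ Psi u * H u R (4 * b) ≤ 2 * D * (C0 * (R:ℝ) ^ Psi u) :=
      (mul_le_mul_of_nonneg_right (h (2 * b) (by omega)).1 hH4.le).trans k7
    rw [div_rpow hRp.le (by positivity)]
    have e6 : 2 * D * C0 / c0 * ((R:ℝ) ^ Psi u / (2 * (b:ℝ)) ^ Psi u) =
        (2 * D * (C0 * (R:ℝ) ^ Psi u)) / (c0 * (2 * (b:ℝ)) ^ Psi u) := by field_simp
    rw [e6, le_div_iff₀ (by positivity)]
    push_cast at k8
    linarith
  refine ⟨2 * D * C0 / c0 * 4 ^ |Psi u| + 16 ^ |Psi u|, by positivity, ?_⟩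
  intro r R hr hrR
  have hr1 : (1:ℝ) ≤ r := by exact_mod_cast hr
  have hrp : (0:ℝ) < r := by linarith
  have hrR' : (r:ℝ) ≤ R := by exact_mod_cast hrR
  have hRp : (0:ℝ) < R := by linarith
  have hq : 0 < ((R:ℝ) / r) ^ Psi u := by positivity
  obtain ⟨b, hb⟩ : ∃ b, b = (r + 3) / 4 := ⟨_, rfl⟩
  have hb0 : 1 ≤ b := by omega
  have hb1 : (1:ℝ) ≤ b := by exact_mod_cast hb0
  have hbp : (0:ℝ) < b := by linarith
  have hb4 : (r:ℝ) ≤ 4 * b := by exact_mod_cast (by omega : r ≤ 4 * b)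
  have hbr : (b:ℝ) ≤ r := by exact_mod_cast (by omega : b ≤ r)
  rcases Nat.lt_or_ge R (16 * b) with hs | hs
  · have k4 : H u R r ≤ 1 := by
      unfold H
      rw [← Ex_const P2 (B R) 1]
      exact Ex_mono ok2 fun F _ => pow_le_one₀ hu.le hu1
    have hs' : (R:ℝ) ≤ 16 * b := by exact_mod_cast hs.le
    have k3 := rpow_cmp (x := 1) (y := (R:ℝ) / r) (L := 16) (a := Psi u) one_pos
      (by positivity) (by norm_num)
      (by
        have : 1 ≤ (R:ℝ) / r := by rw [one_le_div hrp]; exact hrR'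
        linarith)
      (by
        rw [div_le_iff₀ hrp]
        linarith)
    rw [one_rpow] at k3
    refine (k4.trans k3).trans ?_
    apply mul_le_mul_of_nonneg_right _ hq.le
    have : 0 ≤ 2 * D * C0 / c0 * 4 ^ |Psi u| := by positivity
    linarith
  · have k1 := main b R hb0 hs
    have k2 : H u R r ≤ H u R (4 * b) := by
      unfold H
      apply Ex_mono ok2
      intro F _
      exact pow_le_pow_of_le_one hu.le hu1 (U_anti (by omega) F)
    have k3 : ((R:ℝ) / (2 * b)) ^ Psi u ≤ 4 ^ |Psi u| * ((R:ℝ) / r) ^ Psi u := by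
      apply rpow_cmp (by positivity) (by positivity) (by norm_num)
      · rw [div_le_iff₀ (by positivity)]
        have e : 4 * ((R:ℝ) / r) * (2 * b) = R * (8 * b / r) := by ring
        rw [e]
        have : 1 ≤ 8 * (b:ℝ) / r := by rw [one_le_div hrp]; linarith
        exact le_mul_of_one_le_right hRp.le this
      · rw [div_le_iff₀ hrp]
        have e : 4 * ((R:ℝ) / (2 * b)) * r = R * (2 * r / b) := by
          field_simp
          ring
        rw [e]
        have : 1 ≤ 2 * (r:ℝ) / b := by rw [one_le_div hbp]; linarith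
        exact le_mul_of_one_le_right hRp.le this
    calc H u R r ≤ 2 * D * C0 / c0 * ((R:ℝ) / (2 * b)) ^ Psi u := k2.trans k1
      _ ≤ 2 * D * C0 / c0 * (4 ^ |Psi u| * ((R:ℝ) / r) ^ Psi u) :=
          mul_le_mul_of_nonneg_left k3 (by positivity)
      _ = 2 * D * C0 / c0 * 4 ^ |Psi u| * ((R:ℝ) / r) ^ Psi u := by ring
      _ ≤ _ := by
          apply mul_le_mul_of_nonneg_right _ hq.le
          have : (0:ℝ) ≤ 16 ^ |Psi u| := by positivity
          linarith

theorem Co.dn {u K : ℝ} {R c : ℕ} (h : Co u K R c) {S : Finset Edg}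
    (hS : B R \ B (c - 1) ⊆ S) :
    Dn S (fun F => u ^ U c R F) (S \ B (2 * c)) (K * ((R:ℝ) / c) ^ Psi u) := by
  intro φ h0 hφ
  have k := h S hS (fun F => φ (F ∩ S)) (fun _ => h0 _) (fun F => by
    rw [hφ (F ∩ S), hφ (F ∩ B (2 * c) ∩ S)]
    congr 1
    ext e
    simp only [mem_sdiff, mem_inter]
    tauto)
  have e1 : ∀ F, F ⊆ S → φ (F ∩ S) = φ F := by
    intro F hF
    rw [Finset.inter_eq_left.2 hF]
  have e2 : Ex P2 S (fun F => u ^ U c R F * φ F) = Ex P2 S (fun F => u ^ U c R F * φ (F ∩ S)) :=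
    Ex_congr fun F hF => by rw [e1 F hF]
  have e3 : Ex P2 S (fun F => φ F ^ 2) = Ex P2 S (fun F => φ (F ∩ S) ^ 2) :=
    Ex_congr fun F hF => by rw [e1 F hF]
  rw [e2, e3]
  exact k

/-- lower bound for `u > 1` -/
theorem H_low1 {u : ℝ} (hu1 : 1 < u) : ∃ c : ℝ, 0 < c ∧ ∀ r R : ℕ, 1 ≤ r → r ≤ R →
    c * ((R:ℝ) / r) ^ Psi u ≤ H u R r := by
  have hu : 0 < u := by linarith
  obtain ⟨c0, C0, hc0, hC0, h⟩ := mom_all hu
  obtain ⟨K1, hK1, hin⟩ := Dn_in hu
  obtain ⟨K2, hK2, hout⟩ := od hu1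
  obtain ⟨ρ, hρ, hUB⟩ := UB hu1.le 4 18
  obtain ⟨C, hC, htail⟩ := lnk_tail hρ
  obtain ⟨K3, hK3⟩ : ∃ K3 : ℝ, K3 = K1 * K2 * 4 ^ |Psi u| := ⟨_, rfl⟩
  have hK3p : 0 < K3 := by rw [hK3]; positivity
  obtain ⟨κ, hκ⟩ := hUB C (c0 / (2 * K3)) hC (by positivity)
  obtain ⟨D, hD⟩ : ∃ D : ℝ, D = u ^ (4 + 18 * κ) := ⟨_, rfl⟩
  have hD0 : 0 < D := by rw [hD]; positivity
  have main : ∀ b R : ℕ, 5 ≤ b → 8 * b ≤ R →
      c0 / (2 * D * C0) * ((R:ℝ) / (2 * b)) ^ Psi u ≤ H u R (4 * b) := by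
    intro b R hb hR
    have hb1 : (1:ℝ) ≤ b := by exact_mod_cast (by omega : 1 ≤ b)
    have hbp : (0:ℝ) < b := by linarith
    have hRp : (0:ℝ) < R := by exact_mod_cast (by omega : 0 < R)
    obtain ⟨S1, hS1⟩ : ∃ S1, S1 = B (((4 * b : ℕ) : ℤ) - 1) := ⟨_, rfl⟩
    obtain ⟨S2, hS2⟩ : ∃ S2, S2 = B R \ S1 := ⟨_, rfl⟩
    have hS1R : S1 ⊆ B R := by rw [hS1]; exact B_mono (by omega)
    have hU : S1 ∪ S2 = B R := by rw [hS2]; exact Finset.union_sdiff_of_subset hS1R
    have hd : Disjoint S1 S2 := by rw [hS2]; exact Finset.disjoint_sdiff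
    have d1 := hin b S1 (by omega) (by rw [hS1]; exact B_mono (by push_cast; omega))
    have d2 := (hout R (4 * b) (by omega) (by omega)).dn (S := S2) (by rw [hS2, hS1])
    have dd := Dn.mul hd (f1 := fun F => u ^ T (2 * b) F) (f2 := fun F => u ^ U (4 * b) R F)
      (fun X hX Y hY => by
        rw [T_congr (F := X ∪ Y) (F' := X) (fun e he => by
          have he2 : e ∉ Y := by
            intro h3
            have h4 := hY h3
            rw [hS2, mem_sdiff, hS1] at h4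
            exact h4.2 (B_mono (by push_cast; omega) he)
          rw [mem_union]
          exact ⟨fun h5 => h5.resolve_right he2, fun h5 => Or.inl h5⟩)])
      (fun X hX Y hY => by
        rw [U_congr (by omega) (F := X ∪ Y) (F' := Y) (fun e h1 h2 => by
          have he2 : e ∉ X := by
            intro h3
            have h4 := hX h3
            rw [hS1] at h4
            exact h2 h4
          rw [mem_union]
          exact ⟨fun h5 => h5.resolve_left he2, fun h5 => Or.inr h5⟩)])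
      (fun F => by positivity) (by positivity) d1 d2
    rw [hU] at dd
    obtain ⟨N, hN⟩ := lnk_top (v := (0, 0)) (by omega : 1 ≤ b)
    have k2 := hκ (B R) _ _ (fun F => u ^ T R F) _ (fun k F => Lnk (0, 0) b k F) N
      (by positivity) (fun F => by positivity) hN (fun k F hF => by
        have h1 : T R F ≤ T (2 * b) F + U (4 * b) R F + (4 + 18 * k) :=
          in_bound (by omega) hR hF
        calc u ^ T R F ≤ u ^ (T (2 * b) F + U (4 * b) R F + (4 + 18 * k)) :=
              pow_le_pow_right₀ hu1.le h1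
          _ = _ := by rw [pow_add, pow_add]; ring) dd
      (fun k F F' hFF => by
        apply lnk_congr (by omega)
        intro e he he1
        have h2 := Finset.ext_iff.1 hFF e
        rw [hS2, hS1] at h2
        simp only [mem_sdiff, mem_union] at h2
        have he2 : e ∈ B (2 * ((4 * b : ℕ) : ℤ)) := B_mono (by push_cast; omega) he
        have he3 : e ∉ B ((b:ℤ) - 1) := he1
        have h3 : ¬ (e ∈ B ((b:ℤ) - 1) ∨ ((e ∈ B R ∧ e ∉ B (((4 * b : ℕ) : ℤ) - 1)) ∧
            e ∉ B (2 * ((4 * b : ℕ) : ℤ)))) := by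
          rintro (h | h)
          · exact he3 h
          · exact h.2 he2
        constructor
        · intro h4
          exact (h2.1 ⟨h4, h3⟩).1
        · intro h4
          exact (h2.2 ⟨h4, h3⟩).1)
      (fun k => lnk_ex (by omega) htail (sdiff_subset.trans (B_mono (by exact_mod_cast hR))))
    rw [TU (by omega) (by omega) le_rfl, T_loc le_rfl (fun m => u ^ m), ← hD] at k2
    have k3 : K1 * (b:ℝ) ^ Psi u * (K2 * ((R:ℝ) / ((4 * b : ℕ) : ℝ)) ^ Psi u) ≤
        K3 * (R:ℝ) ^ Psi u := by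
      have e1 : K1 * (b:ℝ) ^ Psi u * (K2 * ((R:ℝ) / ((4 * b : ℕ) : ℝ)) ^ Psi u) =
          K1 * K2 * ((R:ℝ) / 4) ^ Psi u := by
        have : ((b:ℝ)) ^ Psi u * ((R:ℝ) / ((4 * b : ℕ) : ℝ)) ^ Psi u = ((R:ℝ) / 4) ^ Psi u := by
          rw [← mul_rpow hbp.le (by positivity)]
          congr 1
          push_cast
          field_simp
        rw [← this]
        ring
      rw [e1, hK3, mul_assoc (K1 * K2)]
      apply mul_le_mul_of_nonneg_left _ (by positivity)
      apply rpow_cmp (by positivity) hRp (by norm_num)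
      · linarith
      · linarith
    have k4 : c0 / (2 * K3) * (K1 * (b:ℝ) ^ Psi u * (K2 * ((R:ℝ) / ((4 * b : ℕ) : ℝ)) ^ Psi u)) ≤
        c0 / 2 * (R:ℝ) ^ Psi u := by
      refine (mul_le_mul_of_nonneg_left k3 (by positivity)).trans (le_of_eq ?_)
      field_simp
    have k5 := (h R (by omega)).1
    have hH4 := H_pos hu R (4 * b)
    have k6 : D * (ET (2 * b) (fun m => u ^ m) * H u R (4 * b)) ≤
        D * (C0 * ((2 * b : ℕ) : ℝ) ^ Psi u * H u R (4 * b)) :=
      mul_le_mul_of_nonneg_left (mul_le_mul_of_nonneg_right (h (2 * b) (by omega)).2 hH4.le) hD0.le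
    have k7 : c0 / 2 * (R:ℝ) ^ Psi u ≤ D * (C0 * (2 * (b:ℝ)) ^ Psi u * H u R (4 * b)) := by
      push_cast at k6
      push_cast at k4
      push_cast at k2
      linarith
    rw [div_rpow hRp.le (by positivity)]
    have e6 : c0 / (2 * D * C0) * ((R:ℝ) ^ Psi u / (2 * (b:ℝ)) ^ Psi u) =
        (c0 / 2 * (R:ℝ) ^ Psi u) / (D * (C0 * (2 * (b:ℝ)) ^ Psi u)) := by field_simp
    rw [e6, div_le_iff₀ (by positivity)]
    linarith
  refine ⟨min (c0 / (2 * D * C0) * (10 ^ |Psi u|)⁻¹) ((40 ^ |Psi u|)⁻¹), by positivity, ?_⟩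
  intro r R hr hrR
  have hr1 : (1:ℝ) ≤ r := by exact_mod_cast hr
  have hrp : (0:ℝ) < r := by linarith
  have hrR' : (r:ℝ) ≤ R := by exact_mod_cast hrR
  have hRp : (0:ℝ) < R := by linarith
  have hq : 0 < ((R:ℝ) / r) ^ Psi u := by positivity
  obtain ⟨b, hb⟩ : ∃ b, b = r + 4 := ⟨_, rfl⟩
  have hbr : (b:ℝ) = r + 4 := by rw [hb]; push_cast; ring
  have hbp : (0:ℝ) < b := by linarith
  rcases Nat.lt_or_ge R (8 * b) with hs | hs
  · have k4 : 1 ≤ H u R r := by
      unfold H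
      rw [← Ex_const P2 (B R) 1]
      exact Ex_mono ok2 fun F _ => one_le_pow₀ hu1.le
    have hs' : (R:ℝ) ≤ 8 * b := by exact_mod_cast hs.le
    have k3 := rpow_cmp (y := 1) (x := (R:ℝ) / r) (L := 40) (a := Psi u)
      (by positivity) one_pos (by norm_num)
      (by
        rw [div_le_iff₀ hrp]
        linarith)
      (by
        have : 1 ≤ (R:ℝ) / r := by rw [one_le_div hrp]; exact hrR'
        linarith)
    rw [one_rpow, mul_one] at k3
    refine le_trans ?_ k4
    calc min (c0 / (2 * D * C0) * (10 ^ |Psi u|)⁻¹) ((40 ^ |Psi u|)⁻¹) * ((R:ℝ) / r) ^ Psi u ≤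
        (40 ^ |Psi u|)⁻¹ * ((R:ℝ) / r) ^ Psi u :=
          mul_le_mul_of_nonneg_right (min_le_right _ _) hq.le
      _ ≤ (40 ^ |Psi u|)⁻¹ * 40 ^ |Psi u| := mul_le_mul_of_nonneg_left k3 (by positivity)
      _ = 1 := inv_mul_cancel₀ (by positivity)
  · have k1 := main b R (by omega) hs
    have k2 : H u R (4 * b) ≤ H u R r := by
      unfold H
      apply Ex_mono ok2
      intro F _
      exact pow_le_pow_right₀ hu1.le (U_anti (by omega) F)
    have k3 : ((R:ℝ) / r) ^ Psi u ≤ 10 ^ |Psi u| * ((R:ℝ) / (2 * b)) ^ Psi u := by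
      apply rpow_cmp (by positivity) (by positivity) (by norm_num)
      · rw [div_le_iff₀ hrp]
        have e : 10 * ((R:ℝ) / (2 * b)) * r = R * (5 * r / b) := by
          field_simp
          ring
        rw [e]
        have : 1 ≤ 5 * (r:ℝ) / b := by rw [one_le_div hbp]; linarith
        exact le_mul_of_one_le_right hRp.le this
      · rw [div_le_iff₀ (by positivity)]
        have e : 10 * ((R:ℝ) / r) * (2 * b) = R * (20 * b / r) := by ring
        rw [e]
        have : 1 ≤ 20 * (b:ℝ) / r := by rw [one_le_div hrp]; linarith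
        exact le_mul_of_one_le_right hRp.le this
    refine le_trans ?_ (k1.trans k2)
    calc min (c0 / (2 * D * C0) * (10 ^ |Psi u|)⁻¹) ((40 ^ |Psi u|)⁻¹) * ((R:ℝ) / r) ^ Psi u ≤
        c0 / (2 * D * C0) * (10 ^ |Psi u|)⁻¹ * ((R:ℝ) / r) ^ Psi u :=
          mul_le_mul_of_nonneg_right (min_le_left _ _) hq.le
      _ ≤ c0 / (2 * D * C0) * (10 ^ |Psi u|)⁻¹ * (10 ^ |Psi u| * ((R:ℝ) / (2 * b)) ^ Psi u) :=
          mul_le_mul_of_nonneg_left k3 (by positivity)
      _ = c0 / (2 * D * C0) * ((R:ℝ) / (2 * b)) ^ Psi u := by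
          have : (10:ℝ) ^ |Psi u| ≠ 0 := by positivity
          field_simp

/-- the moments of the annuli -/
theorem am {u : ℝ} (hu : 0 < u) : ∃ c C : ℝ, 0 < c ∧ 0 < C ∧ ∀ r R : ℕ, 1 ≤ r → r ≤ R →
    c * ((R:ℝ) / r) ^ Psi u ≤ H u R r ∧ H u R r ≤ C * ((R:ℝ) / r) ^ Psi u := by
  rcases le_or_gt u 1 with h | h
  · obtain ⟨c, hc, h1⟩ := H_low hu h
    obtain ⟨C, hC, h2⟩ := H_up1 hu h
    exact ⟨c, C, hc, hC, fun r R hr hR => ⟨h1 r R hr hR, h2 r R hr hR⟩⟩
  · obtain ⟨c, hc, h1⟩ := H_low1 h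
    obtain ⟨C, hC, h2⟩ := ann_up h
    exact ⟨c, C, hc, hC, fun r R hr hR => ⟨h1 r R hr hR, h2 r R hr hR (B R) sdiff_subset⟩⟩

end Pool.Agent.U154.TP
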