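import Pool.Agent.U154.TP.Out

/-!
Decoupling of a function and of the edges outside a set.
-/

set_option autoImplicit false

namespace Pool.Agent.U154.TP

open H974 Finset Pool.Agent.W819.EN Real MeasureTheory
open Pool.Agent.U154.UT (ok2 T B Ex_cs Ex_le_sqrt ind_pow half_sum)

/-- `f` and the functions of the edges outside `I` decouple with the constant `K` -/
def Dn (S : Finset Edg) (f : Finset Edg → ℝ) (I : Finset Edg) (K : ℝ) : Prop :=
  ∀ φ : Finset Edg → ℝ, (∀ F, 0 ≤ φ F) → (∀ F, φ F = φ (F \ I)) →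
    Ex P2 S (fun F => f F * φ F) ≤ K * √(Ex P2 S (fun F => φ F ^ 2))

theorem Dn.mono {S : Finset Edg} {f : Finset Edg → ℝ} {I I' : Finset Edg} {K K' : ℝ}
    (h : Dn S f I K) (hI : I ⊆ I') (hK : K ≤ K') : Dn S f I' K' := by
  intro φ h0 hφ
  refine (h φ h0 (fun F => ?_)).trans (mul_le_mul_of_nonneg_right hK (Real.sqrt_nonneg _))
  rw [hφ F, hφ (F \ I)]
  congr 1
  ext e
  simp only [mem_sdiff]
  constructor
  · rintro ⟨h1, h2⟩
    exact ⟨⟨h1, fun h3 => h2 (hI h3)⟩, h2⟩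
  · rintro ⟨⟨h1, _⟩, h2⟩
    exact ⟨h1, h2⟩

theorem Dn.one {S : Finset Edg} {f : Finset Edg → ℝ} {I : Finset Edg} {K : ℝ}
    (h : Dn S f I K) : Ex P2 S f ≤ K := by
  have := h (fun _ => 1) (fun _ => zero_le_one) (fun _ => rfl)
  simpa [Ex_const] using this

theorem Dn.mul {S1 S2 : Finset Edg} (hd : Disjoint S1 S2) {f1 f2 : Finset Edg → ℝ}
    {I1 I2 : Finset Edg} {K1 K2 : ℝ}
    (hl1 : ∀ X, X ⊆ S1 → ∀ Y, Y ⊆ S2 → f1 (X ∪ Y) = f1 X)
    (hl2 : ∀ X, X ⊆ S1 → ∀ Y, Y ⊆ S2 → f2 (X ∪ Y) = f2 Y) (h02 : ∀ F, 0 ≤ f2 F)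
    (hK1 : 0 ≤ K1) (h1 : Dn S1 f1 I1 K1) (h2 : Dn S2 f2 I2 K2) :
    Dn (S1 ∪ S2) (fun F => f1 F * f2 F) (I1 ∪ I2) (K1 * K2) := by
  intro φ h0 hφ
  have key : ∀ A A' : Finset Edg, A \ (I1 ∪ I2) = A' \ (I1 ∪ I2) → φ A = φ A' := by
    intro A A' h
    rw [hφ A, hφ A', h]
  have e1 : Ex P2 (S1 ∪ S2) (fun F => f1 F * f2 F * φ F) =
      Ex P2 S2 (fun Y => f2 Y * Ex P2 S1 (fun X => f1 X * φ (X ∪ Y))) := by
    rw [Finset.union_comm, Ex_union hd.symm]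
    apply Ex_congr
    intro Y hY
    rw [← Ex_mul_left]
    apply Ex_congr
    intro X hX
    rw [Finset.union_comm Y X, hl1 X hX Y hY, hl2 X hX Y hY]
    ring
  have e2 : Ex P2 (S1 ∪ S2) (fun F => φ F ^ 2) =
      Ex P2 S2 (fun Y => Ex P2 S1 (fun X => φ (X ∪ Y) ^ 2)) := by
    rw [Finset.union_comm, Ex_union hd.symm]
    apply Ex_congr
    intro Y hY
    apply Ex_congr
    intro X hX
    rw [Finset.union_comm Y X]
  have e3 : Ex P2 S2 (fun Y => f2 Y * Ex P2 S1 (fun X => f1 X * φ (X ∪ Y))) ≤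
      Ex P2 S2 (fun Y => K1 * (f2 Y * √(Ex P2 S1 (fun X => φ (X ∪ Y) ^ 2)))) := by
    apply Ex_mono ok2
    intro Y _
    have k := h1 (fun X => φ (X ∪ Y)) (fun _ => h0 _) (fun X => by
      apply key
      ext e
      simp only [mem_sdiff, mem_union]
      tauto)
    calc f2 Y * Ex P2 S1 (fun X => f1 X * φ (X ∪ Y)) ≤
          f2 Y * (K1 * √(Ex P2 S1 (fun X => φ (X ∪ Y) ^ 2))) :=
          mul_le_mul_of_nonneg_left k (h02 Y)
      _ = _ := by ring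
  rw [e1, e2]
  refine e3.trans ?_
  rw [Ex_mul_left, mul_assoc]
  refine mul_le_mul_of_nonneg_left ?_ hK1
  refine (h2 (fun Y => √(Ex P2 S1 (fun X => φ (X ∪ Y) ^ 2))) (fun _ => Real.sqrt_nonneg _)
    (fun Y => ?_)).trans ?_
  · have : Ex P2 S1 (fun X => φ (X ∪ Y) ^ 2) = Ex P2 S1 (fun X => φ (X ∪ Y \ I2) ^ 2) := by
      apply Ex_congr
      intro X _
      rw [key (X ∪ Y) (X ∪ Y \ I2)]
      ext e
      simp only [mem_sdiff, mem_union]
      tauto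
    rw [this]
  · apply le_of_eq
    congr 2
    apply Ex_congr
    intro Y _
    exact Real.sq_sqrt (Ex_nonneg ok2 fun _ _ => sq_nonneg _)

/-- decoupling by monotonicity -/
theorem Dn.of_le {S A I : Finset Edg} {f g : Finset Edg → ℝ} (hfg : ∀ F, f F ≤ g F)
    (hg0 : ∀ F, 0 ≤ g F) (hA : A ⊆ S) (hAI : A ⊆ I) (hg : ∀ F, g F = g (F ∩ A)) :
    Dn S f I (Ex P2 S g) := by
  intro φ h0 hφ
  have e1 : Ex P2 S (fun F => f F * φ F) ≤ Ex P2 S (fun F => g F * φ F) :=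
    Ex_mono ok2 fun F _ => mul_le_mul_of_nonneg_right (hfg F) (h0 F)
  have e2 : Ex P2 S (fun F => g F * φ F) = Ex P2 S g * Ex P2 S φ := by
    refine Ex_mul_indep (S := A) (T := S \ A) hA sdiff_subset Finset.disjoint_sdiff
      (fun F _ => hg F) ?_
    intro F hF
    rw [hφ F, hφ (F ∩ (S \ A))]
    congr 1
    ext e
    simp only [mem_sdiff, mem_inter]
    constructor
    · rintro ⟨h1, h2⟩
      exact ⟨⟨h1, hF h1, fun h3 => h2 (hAI h3)⟩, h2⟩
    · rintro ⟨⟨h1, _⟩, h2⟩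
      exact ⟨h1, h2⟩
  rw [e2] at e1
  exact e1.trans (mul_le_mul_of_nonneg_left (Ex_le_sqrt S φ) (Ex_nonneg ok2 fun F _ => hg0 F))

theorem ex_mp (g : LSym) (S : Finset Edg) (f : Finset Edg → ℝ) :
    Ex P2 (g.mp S) f = Ex P2 S (fun F => f (g.mp F)) := by
  unfold LSym.mp
  exact Ex_map P2 _ S f

theorem mp_sdiff (g : LSym) (F G : Finset Edg) : g.mp (F \ G) = g.mp F \ g.mp G := by
  ext e; simp [LSym.mem_mp]

theorem Dn.mp {S I : Finset Edg} {f f' : Finset Edg → ℝ} {K : ℝ} (g : LSym) (h : Dn S f I K)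
    (hf : ∀ F, f' (g.mp F) = f F) : Dn (g.mp S) f' (g.mp I) K := by
  intro φ h0 hφ
  rw [ex_mp, ex_mp]
  have k := h (fun F => φ (g.mp F)) (fun _ => h0 _) (fun F => by rw [hφ (g.mp F), mp_sdiff])
  refine le_trans (le_of_eq ?_) k
  apply Ex_congr
  intro F _
  rw [hf]

/-- lower bound on an event -/
theorem LB {S I : Finset Edg} {f g : Finset Edg → ℝ} {K D : ℝ} {Q : Finset Edg → Prop}
    (hf : ∀ F, 0 ≤ f F) (hg : ∀ F, 0 ≤ g F) (hD : 0 ≤ D) (h : Dn S f I K)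
    (hQ : ∀ F F' : Finset Edg, F \ I = F' \ I → (Q F ↔ Q F')) (hfg : ∀ F, Q F → f F ≤ D * g F) :
    Ex P2 S f ≤ D * Ex P2 S g + K * √(Ex P2 S (fun F => ind (¬ Q F))) := by
  have k := h (fun F => ind (¬ Q F)) (fun _ => ind_nonneg _) (fun F => by
    apply ind_congr
    apply not_congr
    apply hQ
    ext e
    simp only [mem_sdiff]
    tauto)
  simp only [ind_pow] at k
  have e1 : Ex P2 S f ≤ Ex P2 S (fun F => D * g F + f F * ind (¬ Q F)) := by
    apply Ex_mono ok2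
    intro F _
    by_cases hq : Q F
    · rw [ind_not_of (not_not.2 hq), mul_zero, add_zero]
      exact hfg F hq
    · rw [ind_of hq, mul_one]
      have := mul_nonneg hD (hg F)
      linarith
  rw [Ex_add, Ex_mul_left] at e1
  linarith

/-- upper bound, with a random cost -/
theorem UB {D : ℝ} (hD : 1 ≤ D) (A M : ℕ) : ∃ ρ : ℝ, 0 < ρ ∧ ∀ C ε : ℝ, 0 < C → 0 < ε → ∃ κ : ℕ,
    ∀ (S I : Finset Edg) (f g : Finset Edg → ℝ) (K : ℝ) (Q : ℕ → Finset Edg → Prop) (N : ℕ),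
    0 ≤ K → (∀ F, 0 ≤ f F) → (∀ k, N ≤ k → ∀ F, Q k F) →
    (∀ k F, Q k F → g F ≤ D ^ (A + M * k) * f F) → Dn S f I K →
    (∀ k, ∀ F F' : Finset Edg, F \ I = F' \ I → (Q k F ↔ Q k F')) →
    (∀ k, Ex P2 S (fun F => ind (¬ Q k F)) ≤ C * ρ ^ k) →
    Ex P2 S g ≤ D ^ (A + M * κ) * Ex P2 S f + ε * K := by
  have hD0 : 0 < D := by linarith
  obtain ⟨r, hr⟩ : ∃ r : ℝ, r = 1 / (2 * D ^ M) := ⟨_, rfl⟩
  have hr0 : 0 < r := by rw [hr]; positivity
  have hr1 : D ^ M * r = 1 / 2 := by rw [hr]; field_simp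
  refine ⟨r ^ 2, by positivity, fun C ε hC hε => ?_⟩
  obtain ⟨κ, hκ⟩ : ∃ κ : ℕ, D ^ (A + M) * √C * (2 * (1 / 2) ^ κ) ≤ ε := by
    have h1 : 0 < ε / (2 * (D ^ (A + M) * √C + 1)) := by positivity
    obtain ⟨κ, hκ⟩ := exists_pow_lt_of_lt_one h1 (show (1 / 2 : ℝ) < 1 by norm_num)
    refine ⟨κ, ?_⟩
    have h2 : (1 / 2 : ℝ) ^ κ * (2 * (D ^ (A + M) * √C + 1)) ≤ ε := by
      have := (lt_div_iff₀ (by positivity)).1 hκ
      linarith
    have h3 : 0 ≤ (1 / 2 : ℝ) ^ κ := by positivity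
    linarith
  refine ⟨κ, ?_⟩
  intro S I f g K Q N hK hf hN hgf hdn hQ htl
  classical
  have pt : ∀ F, g F ≤ D ^ (A + M * κ) * f F +
      ∑ k ∈ Finset.Ico κ N, D ^ (A + M + M * k) * (f F * ind (¬ Q k F)) := by
    intro F
    have hnn : ∀ k ∈ Finset.Ico κ N, 0 ≤ D ^ (A + M + M * k) * (f F * ind (¬ Q k F)) :=
      fun k _ => mul_nonneg (by positivity) (mul_nonneg (hf F) (ind_nonneg _))
    have hex : ∃ k, Q k F := ⟨N, hN N le_rfl F⟩
    obtain ⟨k0, hk0⟩ : ∃ k0, k0 = Nat.find hex := ⟨_, rfl⟩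
    have h1 : Q k0 F := by rw [hk0]; exact Nat.find_spec hex
    have h2 : k0 ≤ N := by rw [hk0]; exact Nat.find_min' hex (hN N le_rfl F)
    have h3 := hgf k0 F h1
    by_cases hk : k0 ≤ κ
    · have h4 : D ^ (A + M * k0) ≤ D ^ (A + M * κ) :=
        pow_le_pow_right₀ hD (Nat.add_le_add_left (Nat.mul_le_mul_left _ hk) _)
      have h5 := Finset.sum_nonneg hnn
      have h6 := mul_le_mul_of_nonneg_right h4 (hf F)
      linarith
    · have h4 : ¬ Q (k0 - 1) F := by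
        rw [hk0]
        exact Nat.find_min hex (by omega)
      have h5 : g F ≤ D ^ (A + M + M * (k0 - 1)) * (f F * ind (¬ Q (k0 - 1) F)) := by
        rw [ind_of h4, mul_one]
        refine h3.trans (le_of_eq ?_)
        congr 2
        obtain ⟨j, hj⟩ : ∃ j, k0 = j + 1 := ⟨k0 - 1, by omega⟩
        rw [hj]
        simp only [Nat.add_sub_cancel]
        ring
      have h6 := Finset.single_le_sum hnn (Finset.mem_Ico.2 ⟨by omega, by omega⟩ : k0 - 1 ∈ Ico κ N)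
      have h7 : 0 ≤ D ^ (A + M * κ) * f F := mul_nonneg (by positivity) (hf F)
      linarith
  have p1 : Ex P2 S g ≤ Ex P2 S (fun F => D ^ (A + M * κ) * f F +
      ∑ k ∈ Finset.Ico κ N, D ^ (A + M + M * k) * (f F * ind (¬ Q k F))) :=
    Ex_mono ok2 fun F _ => pt F
  rw [Ex_add, Ex_sum, Ex_mul_left] at p1
  have p3 : ∀ k ∈ Finset.Ico κ N, Ex P2 S (fun F => D ^ (A + M + M * k) *
      (f F * ind (¬ Q k F))) ≤ K * (D ^ (A + M) * √C) * (1 / 2) ^ k := by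
    intro k _
    rw [Ex_mul_left]
    have i1 := hdn (fun F => ind (¬ Q k F)) (fun _ => ind_nonneg _) (fun F => by
      apply ind_congr
      apply not_congr
      apply hQ
      ext e
      simp only [mem_sdiff]
      tauto)
    simp only [ind_pow] at i1
    have i2 : √(Ex P2 S (fun F => ind (¬ Q k F))) ≤ √C * r ^ k := by
      have := Real.sqrt_le_sqrt (htl k)
      rwa [Real.sqrt_mul hC.le, ← pow_mul, mul_comm 2 k, pow_mul, Real.sqrt_sq (by positivity)]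
        at this
    calc D ^ (A + M + M * k) * Ex P2 S (fun F => f F * ind (¬ Q k F)) ≤
        D ^ (A + M + M * k) * (K * (√C * r ^ k)) := by
          apply mul_le_mul_of_nonneg_left _ (by positivity)
          exact i1.trans (mul_le_mul_of_nonneg_left i2 hK)
      _ = K * (D ^ (A + M) * √C) * ((D ^ M * r) ^ k) := by
          rw [pow_add _ (A + M), pow_mul D M k, mul_pow]
          ring
      _ = _ := by rw [hr1]
  have p4 := Finset.sum_le_sum p3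
  rw [← Finset.mul_sum] at p4
  have p5 : K * (D ^ (A + M) * √C) * ∑ k ∈ Finset.Ico κ N, (1 / 2 : ℝ) ^ k ≤ ε * K := by
    calc K * (D ^ (A + M) * √C) * ∑ k ∈ Finset.Ico κ N, (1 / 2 : ℝ) ^ k ≤
        K * (D ^ (A + M) * √C) * (2 * (1 / 2) ^ κ) :=
          mul_le_mul_of_nonneg_left (half_sum κ N) (by positivity)
      _ = K * (D ^ (A + M) * √C * (2 * (1 / 2) ^ κ)) := by ring
      _ ≤ K * ε := mul_le_mul_of_nonneg_left hκ hK
      _ = ε * K := mul_comm _ _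
  linarith

end Pool.Agent.U154.TP
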