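import Pool.Agent.U154.UT.Mo
import Pool.Agent.W605.EN.Sec1
import Pool.Agent.W918.EN.Loc
import Pool.Agent.W21.EN.Tr

/-!
Links around an arbitrary vertex.
-/

set_option autoImplicit false

namespace Pool.Agent.U154.TP

open H974 Finset Pool.Agent.W819.EN Real
open Pool.Agent.U154.UT (ok2 ltail LR_congr TB_congr)

theorem geo : Geo NA := geo_of Pool.Agent.W918.EN.t_LOC Pool.Agent.W21.EN.t_TR
  Pool.Agent.W21.EN.t_MONO Pool.Agent.W21.EN.t_SUPER Pool.Agent.W38.EN.t_CIR0 Pool.Agent.W38.EN.t_RAD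

/-- `Lnk` only depends on the annulus -/
theorem lnk_congr {v : Vtx} {b k : ℕ} (hb : 1 ≤ b) {F F' : Finset Edg}
    (h : ∀ e, e ∈ bx v (8 * b) → e ∉ bx v (b - 1) → (e ∈ F ↔ e ∈ F')) :
    Lnk v b k F ↔ Lnk v b k F' := by
  have hb' : (1 : ℤ) ≤ b := by exact_mod_cast hb
  have key : ∀ S : Finset Edg, (∀ e ∈ S, e ∈ bx v (8 * b) ∧ e ∉ bx v (b - 1)) →
      F ∩ S = F' ∩ S := by
    intro S hS
    ext e
    simp only [mem_inter]
    constructor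
    · rintro ⟨h1, h2⟩
      exact ⟨(h e (hS e h2).1 (hS e h2).2).1 h1, h2⟩
    · rintro ⟨h1, h2⟩
      exact ⟨(h e (hS e h2).1 (hS e h2).2).2 h1, h2⟩
  unfold Lnk Cir Rad
  refine and_congr (and_congr (and_congr (LR_congr _ _ _ _ _ (key _ ?_))
    (LR_congr _ _ _ _ _ (key _ ?_))) (and_congr (TB_congr _ _ _ _ _ (key _ ?_))
    (TB_congr _ _ _ _ _ (key _ ?_)))) (and_congr (and_congr (and_congr
    (LR_congr _ _ _ _ _ (key _ ?_))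
    (LR_congr _ _ _ _ _ (key _ ?_))) (and_congr (TB_congr _ _ _ _ _ (key _ ?_))
    (TB_congr _ _ _ _ _ (key _ ?_)))) (LR_congr _ _ _ _ _ (key _ ?_)))
  all_goals
    rintro ⟨x, y, _ | _⟩ he
    · simp only [bx, mem_LRE_false, mem_TBE_false, mem_RE_false] at he ⊢
      omega
    · simp only [bx, mem_LRE_true, mem_TBE_true, mem_RE_true] at he ⊢
      omega

theorem lnk_top {v : Vtx} {b : ℕ} (hb : 1 ≤ b) : ∃ N : ℕ, ∀ k, N ≤ k → ∀ F, Lnk v b k F := by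
  have hb' : (1 : ℤ) ≤ b := by exact_mod_cast hb
  have cir : ∀ c : ℤ, 1 ≤ c → ∃ N : ℕ, ∀ k, N ≤ k → ∀ F, Cir v c k F := by
    intro c hc
    refine ⟨(LRE (v.1 - 2 * c) (v.1 + 2 * c) (v.2 + c) (v.2 + 2 * c)).card +
      (LRE (v.1 - 2 * c) (v.1 + 2 * c) (v.2 - 2 * c) (v.2 - c)).card +
      (TBE (v.1 + c) (v.1 + 2 * c) (v.2 - 2 * c) (v.2 + 2 * c)).card +
      (TBE (v.1 - 2 * c) (v.1 - c) (v.2 - 2 * c) (v.2 + 2 * c)).card, fun k hk F => ?_⟩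
    refine ⟨⟨⟨_, Subset.rfl, ?_, Pool.Agent.H863R2.NL.BadAux.full_LR ?_ ?_ _⟩,
      ⟨_, Subset.rfl, ?_, Pool.Agent.H863R2.NL.BadAux.full_LR ?_ ?_ _⟩⟩,
      ⟨⟨_, Subset.rfl, ?_, Pool.Agent.H863R2.NL.BadAux.full_TB ?_ ?_ _⟩,
      ⟨_, Subset.rfl, ?_, Pool.Agent.H863R2.NL.BadAux.full_TB ?_ ?_ _⟩⟩⟩
    all_goals omega
  obtain ⟨N1, h1⟩ := cir b hb'
  obtain ⟨N2, h2⟩ := cir (4 * b) (by omega)
  refine ⟨N1 + N2 + (LRE (v.1 + b) (v.1 + 8 * b) (v.2 - b) (v.2 + b)).card, fun k hk F =>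
    ⟨h1 k (by omega) F, h2 k (by omega) F, ⟨_, Subset.rfl, ?_,
      Pool.Agent.H863R2.NL.BadAux.full_LR ?_ ?_ _⟩⟩⟩
  all_goals omega

/-- superexponential tails of the local cost -/
theorem lnk_tail {ρ : ℝ} (hρ : 0 < ρ) : ∃ C : ℝ, 0 < C ∧ ∀ (b : ℕ) (v : Vtx) (S : Finset Edg),
    1 ≤ b → bx v (8 * b) ⊆ S → ∀ k : ℕ, Ex P2 S (fun F => ind (¬ Lnk v b k F)) ≤ C * ρ ^ k := by
  obtain ⟨C, hC, h⟩ := ltail ρ hρ
  exact ⟨C, hC, fun b v S hb hS k => h b v S hb hS k⟩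

/-- from the scale `c` to the scale `4 c` -/
theorem out_bound {v : Vtx} {c k R : ℕ} (hc : 1 ≤ c) (hR : 8 * c ≤ R) {F : Finset Edg}
    (h : Lnk v c k F) : NA F v c R ≤ NA F v (4 * c) R + (4 + 20 * k) := by
  have h1 := geo.link F v c k c R hc le_rfl hR h
  have h2 := Pool.Agent.W38.EN.t_RAD F v c k hc h.2.2
  have h3 := geo.mono F v c c (2 * c) (8 * c) le_rfl (by omega)
  omega

/-- through a link -/
theorem in_bound {v : Vtx} {b k R : ℕ} (hb : 1 ≤ b) (hR : 8 * b ≤ R) {F : Finset Edg}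
    (h : Lnk v b k F) : NA F v 0 R ≤ NA F v 0 (2 * b) + NA F v (4 * b) R + (4 + 18 * k) :=
  geo.link F v b k 0 R hb (Nat.zero_le _) hR h

theorem bx_mono {v : Vtx} {k k' : ℤ} (h : k ≤ k') : bx v k ⊆ bx v k' := by
  rintro ⟨x, y, _ | _⟩ he
  · simp only [bx, mem_RE_false] at he ⊢
    omega
  · simp only [bx, mem_RE_true] at he ⊢
    omega

/-- `NA` only depends on the annulus -/
theorem NA_congr {v : Vtx} {r R : ℕ} (hr : r ≤ R) {F F' : Finset Edg}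
    (h : ∀ e, e ∈ bx v R → e ∉ bx v (r - 1) → (e ∈ F ↔ e ∈ F')) : NA F v r R = NA F' v r R := by
  rw [geo.loc F v r R hr, geo.loc F' v r R hr]
  congr 1
  ext e
  simp only [mem_inter, an, mem_sdiff]
  constructor
  · rintro ⟨h1, h2, h3⟩
    exact ⟨(h e h2 h3).1 h1, h2, h3⟩
  · rintro ⟨h1, h2, h3⟩
    exact ⟨(h e h2 h3).2 h1, h2, h3⟩

end Pool.Agent.U154.TP
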