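import Pool.Agent.U154.TP.Lnk

/-!
Decoupling: the number of changes in an annulus and the edges inside twice its inner radius.
-/

set_option autoImplicit false

namespace Pool.Agent.U154.TP

open H974 Finset Pool.Agent.W819.EN Real MeasureTheory
open Pool.Agent.H863R2.NL (ET ET_const ET_le_ET int_changes changes)
open Pool.Agent.U154.UT (ok2 T B ET_T mom_low moments Ex_cs Ex_le_sqrt ind_pow half_sum T_congr)

/-- the number of changes between the distances `c` and `R` -/
noncomputable def U (c R : ℕ) (F : Finset Edg) : ℕ := NA F (0, 0) c R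

theorem B_mono {k k' : ℤ} (h : k ≤ k') : B k ⊆ B k' := bx_mono h

theorem U_congr {c R : ℕ} (hr : c ≤ R) {F F' : Finset Edg}
    (h : ∀ e, e ∈ B R → e ∉ B (c - 1) → (e ∈ F ↔ e ∈ F')) : U c R F = U c R F' := NA_congr hr h

theorem mom_two {u : ℝ} (hu : 1 < u) : ∃ c C : ℝ, 0 < c ∧ 0 < C ∧ ∀ n : ℕ, 1 ≤ n →
    c * (n : ℝ) ^ Psi u ≤ ET n (fun m => u ^ m) ∧ ET n (fun m => u ^ m) ≤ C * (n : ℝ) ^ Psi u := by
  obtain ⟨c, C, hc, hC, h⟩ := moments hu
  refine ⟨c, C, hc, hC, fun n hn => ?_⟩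
  have h1 := h n hn
  rw [int_changes n (fun m => u ^ m)] at h1
  exact h1

theorem Psi_nonneg {u : ℝ} (hu : 1 < u) : 0 ≤ Psi u := by
  obtain ⟨c, C, hc, hC, h⟩ := mom_two hu
  by_contra hneg
  have h1 : ∀ n : ℕ, 1 ≤ n → (1:ℝ) ≤ C * (n:ℝ) ^ Psi u := by
    intro n hn
    refine le_trans ?_ (h n hn).2
    rw [← ET_const n 1]
    exact ET_le_ET fun m => one_le_pow₀ hu.le
  have h2 : Filter.Tendsto (fun n : ℕ => C * (n:ℝ) ^ Psi u) Filter.atTop (nhds (C * 0)) := by
    apply Filter.Tendsto.const_mul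
    have := tendsto_rpow_neg_atTop (y := -Psi u) (by linarith)
    rw [neg_neg] at this
    exact this.comp tendsto_natCast_atTop_atTop
  rw [mul_zero] at h2
  have h3 := ge_of_tendsto h2 (by
    filter_upwards [Filter.eventually_ge_atTop 1] with n hn
    exact h1 n hn)
  linarith

/-- the upper bound for the annuli -/
theorem ann_up {u : ℝ} (hu : 1 < u) : ∃ K : ℝ, 0 < K ∧ ∀ c R : ℕ, 1 ≤ c → c ≤ R →
    ∀ S : Finset Edg, B R \ B (c - 1) ⊆ S →
      Ex P2 S (fun F => u ^ U c R F) ≤ K * ((R:ℝ) / c) ^ Psi u := by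
  obtain ⟨c0, C0, hc0, hC0, h⟩ := mom_two hu
  have hΨ := Psi_nonneg hu
  have hu0 : 0 < u := by linarith
  refine ⟨C0 / c0 * 2 ^ Psi u + C0, by positivity, ?_⟩
  intro c R hc hcR S hS
  have hcR' : (c:ℝ) ≤ R := by exact_mod_cast hcR
  have hc1 : (1:ℝ) ≤ c := by exact_mod_cast hc
  have hcp : (0:ℝ) < c := by linarith
  have hRp : (0:ℝ) < R := by linarith
  -- reduction to the box
  have e1 : Ex P2 S (fun F => u ^ U c R F) = Ex P2 (B R) (fun F => u ^ U c R F) := by
    have hl : ∀ S' : Finset Edg, B R \ B (c - 1) ⊆ S' → Ex P2 S' (fun F => u ^ U c R F) =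
        Ex P2 (B R \ B (c - 1)) (fun F => u ^ U c R F) := by
      intro S' hS'
      apply Ex_local hS'
      intro F _
      rw [U_congr hcR (F := F) (F' := F ∩ (B R \ B (c - 1))) (fun e h1 h2 => by
        simp only [mem_inter, mem_sdiff]
        exact ⟨fun h3 => ⟨h3, h1, h2⟩, fun h3 => h3.1⟩)]
    rw [hl S hS, hl (B R) sdiff_subset]
  rw [e1]
  -- the product
  have e2 : Ex P2 (B R) (fun F => u ^ T (c - 1) F * u ^ U c R F) =
      Ex P2 (B R) (fun F => u ^ T (c - 1) F) * Ex P2 (B R) (fun F => u ^ U c R F) := by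
    refine Ex_mul_indep (S := B ((c - 1 : ℕ) : ℤ)) (T := B R \ B (c - 1)) (B_mono (by omega))
      sdiff_subset ?_ ?_ ?_
    · rw [Finset.disjoint_left]
      intro e he he'
      apply (mem_sdiff.1 he').2
      have : ((c - 1 : ℕ) : ℤ) = (c:ℤ) - 1 := by omega
      rwa [this] at he
    · intro F _
      rw [T_congr (F := F) (F' := F ∩ B ((c - 1 : ℕ) : ℤ)) (fun e he => by
        rw [mem_inter]
        exact ⟨fun h1 => ⟨h1, he⟩, fun h1 => h1.1⟩)]
    · intro F _
      rw [U_congr hcR (F := F) (F' := F ∩ (B R \ B (c - 1))) (fun e h1 h2 => by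
        simp only [mem_inter, mem_sdiff]
        exact ⟨fun h3 => ⟨h3, h1, h2⟩, fun h3 => h3.1⟩)]
  have e3 : Ex P2 (B R) (fun F => u ^ T (c - 1) F * u ^ U c R F) ≤
      Ex P2 (B R) (fun F => u ^ T R F) := by
    apply Ex_mono ok2
    intro F _
    rw [← pow_add]
    apply pow_le_pow_right₀ hu.le
    exact geo.super F (0, 0) 0 (c - 1) c R (Nat.zero_le _) (by omega) hcR
  have e4 : Ex P2 (B R) (fun F => u ^ T R F) = ET R (fun m => u ^ m) := (ET_T R _).symm
  have e5 : Ex P2 (B R) (fun F => u ^ T (c - 1) F) = ET (c - 1) (fun m => u ^ m) := by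
    rw [ET_T]
    apply Ex_local (B_mono (by omega))
    intro F _
    rw [T_congr (F := F) (F' := F ∩ B ((c - 1 : ℕ) : ℤ)) (fun e he => by
      rw [mem_inter]
      exact ⟨fun h1 => ⟨h1, he⟩, fun h1 => h1.1⟩)]
  rw [e2, e4, e5] at e3
  have k1 := (h R (by omega)).2
  obtain ⟨X, hX⟩ : ∃ X, X = Ex P2 (B R) (fun F => u ^ U c R F) := ⟨_, rfl⟩
  have hX0 : 0 ≤ X := by rw [hX]; exact Ex_nonneg ok2 fun F _ => by positivity
  rw [← hX] at e3 ⊢
  have hq : 0 < ((R:ℝ) / c) ^ Psi u := by positivity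
  rcases Nat.lt_or_ge c 2 with h2 | h2
  · have hc' : c = 1 := by omega
    have k2 : 1 ≤ ET (c - 1) (fun m => u ^ m) := by
      rw [← ET_const (c - 1) 1]
      exact ET_le_ET fun m => one_le_pow₀ hu.le
    have k3 : X ≤ C0 * (R:ℝ) ^ Psi u := by
      have : 1 * X ≤ ET (c - 1) (fun m => u ^ m) * X := mul_le_mul_of_nonneg_right k2 hX0
      linarith
    have k4 : (R:ℝ) ^ Psi u = ((R:ℝ) / c) ^ Psi u := by rw [hc']; simp
    rw [k4] at k3
    refine k3.trans (mul_le_mul_of_nonneg_right ?_ hq.le)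
    have : 0 ≤ C0 / c0 * 2 ^ Psi u := by positivity
    linarith
  · have k2 := (h (c - 1) (by omega)).1
    have c2 : ((c - 1 : ℕ) : ℝ) = (c:ℝ) - 1 := by
      rw [Nat.cast_sub hc]
      simp
    have c3 : (2:ℝ) ≤ c := by exact_mod_cast h2
    have k3 : ((c:ℝ) / 2) ^ Psi u ≤ ((c - 1 : ℕ) : ℝ) ^ Psi u := by
      apply rpow_le_rpow (by positivity) _ hΨ
      rw [c2]
      linarith
    have k4 : c0 * ((c:ℝ) / 2) ^ Psi u * X ≤ C0 * (R:ℝ) ^ Psi u := by
      refine le_trans ?_ (e3.trans k1)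
      apply mul_le_mul_of_nonneg_right _ hX0
      exact (mul_le_mul_of_nonneg_left k3 hc0.le).trans k2
    have k5 : X ≤ C0 / c0 * 2 ^ Psi u * ((R:ℝ) / c) ^ Psi u := by
      rw [div_rpow hcp.le (by norm_num)] at k4
      rw [div_rpow hRp.le hcp.le]
      have hcc : 0 < (c:ℝ) ^ Psi u := by positivity
      have h22 : 0 < (2:ℝ) ^ Psi u := by positivity
      have e6 : C0 / c0 * 2 ^ Psi u * ((R:ℝ) ^ Psi u / (c:ℝ) ^ Psi u) =
          (C0 * (R:ℝ) ^ Psi u) / (c0 * ((c:ℝ) ^ Psi u / 2 ^ Psi u)) := by field_simp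
      rw [e6, le_div_iff₀ (by positivity)]
      linarith
    refine k5.trans (mul_le_mul_of_nonneg_right ?_ hq.le)
    linarith

/-- the claim at the scale `c` -/
def Co (u K : ℝ) (R c : ℕ) : Prop :=
  ∀ S : Finset Edg, B R \ B (c - 1) ⊆ S → ∀ φ : Finset Edg → ℝ, (∀ F, 0 ≤ φ F) →
    (∀ F, φ F = φ (F ∩ B (2 * c))) →
    Ex P2 S (fun F => u ^ U c R F * φ F) ≤
      K * ((R:ℝ) / c) ^ Psi u * √(Ex P2 S (fun F => φ F ^ 2))

/-- conditioning on the edges inside `B (2 c)` -/
theorem condO {u K : ℝ} (hu : 1 < u) (hK : 0 ≤ K) {R c : ℕ} (hc : 1 ≤ c) (hR : 4 * c ≤ R)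
    (ih : Co u K R (4 * c)) {S : Finset Edg} (hS : B R \ B (c - 1) ⊆ S) {φ : Finset Edg → ℝ}
    (h0 : ∀ F, 0 ≤ φ F) (hφ : ∀ F, φ F = φ (F ∩ B (2 * c))) {χ : Finset Edg → Prop}
    (hχ : ∀ F F' : Finset Edg, F ∩ B (8 * c) = F' ∩ B (8 * c) → (χ F ↔ χ F')) :
    Ex P2 S (fun F => u ^ U (4 * c) R F * (ind (χ F) * φ F)) ≤
      K * ((R:ℝ) / ((4 * c : ℕ) : ℝ)) ^ Psi u *
        (√(Ex P2 S (fun F => φ F ^ 2)) * √(Ex P2 S (fun F => ind (χ F)))) := by
  obtain ⟨D, hD⟩ : ∃ D, D = S \ B (2 * c) := ⟨_, rfl⟩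
  have hDS : D ⊆ S := by rw [hD]; exact sdiff_subset
  have hA : 0 ≤ ((R:ℝ) / ((4 * c : ℕ) : ℝ)) ^ Psi u := by positivity
  have hSd : S = (S \ D) ∪ D := by rw [Finset.sdiff_union_of_subset hDS]
  have hd : Disjoint (S \ D) D := Finset.sdiff_disjoint
  have hin : ∀ X, X ⊆ S \ D → X ⊆ B (2 * c) := by
    intro X hX e he
    have := mem_sdiff.1 (hX he)
    by_contra hc'
    apply this.2
    rw [hD]
    exact mem_sdiff.2 ⟨this.1, hc'⟩
  have hout : ∀ Y, Y ⊆ D → ∀ e ∈ Y, e ∉ B (2 * c) := by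
    intro Y hY e he
    have := hY he
    rw [hD] at this
    exact (mem_sdiff.1 this).2
  have e0 : ∀ f : Finset Edg → ℝ, Ex P2 S f =
      Ex P2 (S \ D) (fun X => Ex P2 D (fun Y => f (X ∪ Y))) := by
    intro f
    conv_lhs => rw [hSd]
    exact Ex_union hd f
  have e1 : ∀ X, X ⊆ S \ D → ∀ Y, Y ⊆ D → φ (X ∪ Y) = φ X := by
    intro X hX Y hY
    rw [hφ (X ∪ Y), hφ X]
    congr 1
    ext e
    simp only [mem_inter, mem_union]
    constructor
    · rintro ⟨h1 | h1, h2⟩
      · exact ⟨h1, h2⟩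
      · exact absurd h2 (hout Y hY e h1)
    · rintro ⟨h1, h2⟩
      exact ⟨Or.inl h1, h2⟩
  have e2 : ∀ X, X ⊆ S \ D → ∀ Y, Y ⊆ D → U (4 * c) R (X ∪ Y) = U (4 * c) R Y := by
    intro X hX Y hY
    apply U_congr hR
    intro e _ he2
    simp only [mem_union]
    constructor
    · rintro (h1 | h1)
      · exfalso
        apply he2
        exact B_mono (by push_cast; omega) (hin X hX h1)
      · exact h1
    · exact fun h1 => Or.inr h1
  have e3 : Ex P2 S (fun F => φ F ^ 2) = Ex P2 (S \ D) (fun X => φ X ^ 2) := by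
    rw [e0]
    apply Ex_congr
    intro X hX
    have : Ex P2 D (fun Y => φ (X ∪ Y) ^ 2) = Ex P2 D (fun _ => φ X ^ 2) := by
      apply Ex_congr
      intro Y hY
      rw [e1 X hX Y hY]
    rw [this, Ex_const]
  rw [e0, e3, e0 (fun F => ind (χ F))]
  have hDann : B R \ B ((4 * c : ℕ) - 1) ⊆ D := by
    intro e he
    obtain ⟨a1, a2⟩ := mem_sdiff.1 he
    rw [hD, mem_sdiff]
    constructor
    · apply hS
      rw [mem_sdiff]
      exact ⟨a1, fun h => a2 (B_mono (by push_cast; omega) h)⟩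
    · exact fun h => a2 (B_mono (by push_cast; omega) h)
  have e4 : Ex P2 (S \ D) (fun X => Ex P2 D (fun Y =>
      u ^ U (4 * c) R (X ∪ Y) * (ind (χ (X ∪ Y)) * φ (X ∪ Y)))) ≤
      Ex P2 (S \ D) (fun X => K * ((R:ℝ) / ((4 * c : ℕ) : ℝ)) ^ Psi u *
        (φ X * √(Ex P2 D (fun Y => ind (χ (X ∪ Y)))))) := by
    apply Ex_mono ok2
    intro X hX
    have k1 : Ex P2 D (fun Y => u ^ U (4 * c) R (X ∪ Y) * (ind (χ (X ∪ Y)) * φ (X ∪ Y))) =
        Ex P2 D (fun Y => φ X * (u ^ U (4 * c) R Y * ind (χ (X ∪ Y)))) := by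
      apply Ex_congr
      intro Y hY
      rw [e1 X hX Y hY, e2 X hX Y hY]
      ring
    rw [k1, Ex_mul_left]
    have k2 := ih D hDann (fun Y => ind (χ (X ∪ Y))) (fun _ => ind_nonneg _) (fun Y => by
      apply ind_congr
      apply hχ
      ext e
      simp only [mem_inter, mem_union]
      have h8 : (2 * ((4 * c : ℕ) : ℤ)) = 8 * (c:ℤ) := by push_cast; ring
      rw [h8]
      constructor
      · rintro ⟨h1 | h1, h2⟩
        · exact ⟨Or.inl h1, h2⟩
        · exact ⟨Or.inr ⟨h1, h2⟩, h2⟩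
      · rintro ⟨h1 | h1, h2⟩
        · exact ⟨Or.inl h1, h2⟩
        · exact ⟨Or.inr h1.1, h2⟩)
    simp only [ind_pow] at k2
    calc φ X * Ex P2 D (fun Y => u ^ U (4 * c) R Y * ind (χ (X ∪ Y))) ≤
          φ X * (K * ((R:ℝ) / ((4 * c : ℕ) : ℝ)) ^ Psi u *
            √(Ex P2 D (fun Y => ind (χ (X ∪ Y))))) :=
          mul_le_mul_of_nonneg_left k2 (h0 X)
      _ = _ := by ring
  refine e4.trans ?_
  rw [Ex_mul_left]
  refine mul_le_mul_of_nonneg_left ?_ (mul_nonneg hK hA)
  refine (Ex_cs (S \ D) φ (fun X => √(Ex P2 D (fun Y => ind (χ (X ∪ Y)))))).trans ?_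
  have e5 : Ex P2 (S \ D) (fun X => √(Ex P2 D (fun Y => ind (χ (X ∪ Y)))) ^ 2) =
      Ex P2 (S \ D) (fun X => Ex P2 D (fun Y => ind (χ (X ∪ Y)))) := by
    apply Ex_congr
    intro X _
    exact Real.sq_sqrt (Ex_nonneg ok2 fun _ _ => ind_nonneg _)
  rw [e5]

/-- pointwise bound -/
theorem ptO {u : ℝ} (hu : 1 < u) {c R κ N : ℕ} (hc : 1 ≤ c) (hR : 8 * c ≤ R)
    (hN : ∀ k, N ≤ k → ∀ F, Lnk (0, 0) c k F) (F : Finset Edg) :
    u ^ U c R F ≤ u ^ (4 + 20 * κ) * u ^ U (4 * c) R F +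
      ∑ k ∈ Finset.Ico κ N, u ^ (24 + 20 * k) * (u ^ U (4 * c) R F * ind (¬ Lnk (0, 0) c k F)) := by
  classical
  have hu0 : 0 < u := by linarith
  have hex : ∃ k, Lnk (0, 0) c k F := ⟨N, hN N le_rfl F⟩
  obtain ⟨k0, hk0⟩ : ∃ k0, k0 = Nat.find hex := ⟨_, rfl⟩
  have h1 : Lnk (0, 0) c k0 F := by rw [hk0]; exact Nat.find_spec hex
  have h2 : k0 ≤ N := by rw [hk0]; exact Nat.find_min' hex (hN N le_rfl F)
  have h3 : U c R F ≤ U (4 * c) R F + (4 + 20 * k0) := out_bound hc hR h1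
  have hnn : ∀ k ∈ Finset.Ico κ N,
      0 ≤ u ^ (24 + 20 * k) * (u ^ U (4 * c) R F * ind (¬ Lnk (0, 0) c k F)) :=
    fun k _ => mul_nonneg (by positivity) (mul_nonneg (by positivity) (ind_nonneg _))
  by_cases hk : k0 ≤ κ
  · have h4 : u ^ U c R F ≤ u ^ (4 + 20 * κ) * u ^ U (4 * c) R F := by
      rw [← pow_add]
      exact pow_le_pow_right₀ hu.le (by omega)
    have h5 := Finset.sum_nonneg hnn
    linarith
  · have h4 : ¬ Lnk (0, 0) c (k0 - 1) F := by
      rw [hk0]
      exact Nat.find_min hex (by omega)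
    have h5 : u ^ U c R F ≤ u ^ (24 + 20 * (k0 - 1)) *
        (u ^ U (4 * c) R F * ind (¬ Lnk (0, 0) c (k0 - 1) F)) := by
      rw [ind_of h4, mul_one, ← pow_add]
      exact pow_le_pow_right₀ hu.le (by omega)
    have h6 := Finset.single_le_sum hnn (Finset.mem_Ico.2 ⟨by omega, by omega⟩ : k0 - 1 ∈ Ico κ N)
    have h7 : 0 ≤ u ^ (4 + 20 * κ) * u ^ U (4 * c) R F := by positivity
    linarith

/-- the decoupling inequality -/
theorem od {u : ℝ} (hu : 1 < u) : ∃ K : ℝ, 0 < K ∧ ∀ R c : ℕ, 1 ≤ c → c ≤ R → Co u K R c := by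
  have hu0 : 0 < u := by linarith
  have hΨ := Psi_nonneg hu
  have hu2 : 1 < u ^ 2 := one_lt_pow₀ hu (by norm_num)
  have hΨ2 := Psi_nonneg hu2
  obtain ⟨K0, hK0, hup⟩ := ann_up hu
  obtain ⟨K1, hK1, hup2⟩ := ann_up hu2
  obtain ⟨r, hr⟩ : ∃ r : ℝ, r = 1 / (2 * u ^ 20) := ⟨_, rfl⟩
  have hr0 : 0 < r := by rw [hr]; positivity
  have hr1 : u ^ 20 * r = 1 / 2 := by rw [hr]; field_simp
  obtain ⟨C, hC, htail⟩ := lnk_tail (ρ := r ^ 2) (by positivity)
  obtain ⟨κ, hκ⟩ : ∃ κ : ℕ, u ^ 24 * √C * (2 * (1 / 2) ^ κ) ≤ 1 / 2 := by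
    have h1 : 0 < 1 / (4 * (u ^ 24 * √C + 1)) := by positivity
    obtain ⟨κ, hκ⟩ := exists_pow_lt_of_lt_one h1 (show (1 / 2 : ℝ) < 1 by norm_num)
    refine ⟨κ, ?_⟩
    have h2 : (1 / 2 : ℝ) ^ κ * (4 * (u ^ 24 * √C + 1)) ≤ 1 := by
      have := (lt_div_iff₀ (by positivity)).1 hκ
      linarith
    have h3 : 0 ≤ (1 / 2 : ℝ) ^ κ := by positivity
    linarith
  obtain ⟨K, hKd⟩ : ∃ K : ℝ, K = √(K1 * 8 ^ Psi (u ^ 2)) + 2 * (u ^ (4 + 20 * κ) * K0) := ⟨_, rfl⟩
  have hKp : 0 < K := by rw [hKd]; positivity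
  have hKa : √(K1 * 8 ^ Psi (u ^ 2)) ≤ K := by
    rw [hKd]
    have : 0 ≤ 2 * (u ^ (4 + 20 * κ) * K0) := by positivity
    linarith
  have hKb : u ^ (4 + 20 * κ) * K0 ≤ K / 2 := by
    rw [hKd]
    have := sqrt_nonneg (K1 * 8 ^ Psi (u ^ 2))
    linarith
  refine ⟨K, hKp, ?_⟩
  intro R
  -- induction on the difference
  have main : ∀ d c : ℕ, 1 ≤ c → c ≤ R → R - c = d → Co u K R c := by
    intro d
    induction d using Nat.strong_induction_on with
    | _ d ih =>
      intro c hc hcR hd S hS φ h0 hφ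
      have hc1 : (1:ℝ) ≤ c := by exact_mod_cast hc
      have hcp : (0:ℝ) < c := by linarith
      have hcR' : (c:ℝ) ≤ R := by exact_mod_cast hcR
      obtain ⟨q, hq⟩ : ∃ q, q = √(Ex P2 S (fun F => φ F ^ 2)) := ⟨_, rfl⟩
      have hq0 : 0 ≤ q := by rw [hq]; exact Real.sqrt_nonneg _
      obtain ⟨A, hA⟩ : ∃ A, A = ((R:ℝ) / c) ^ Psi u := ⟨_, rfl⟩
      have hA1 : 1 ≤ A := by
        rw [hA]
        apply one_le_rpow _ hΨ
        rw [one_le_div hcp]
        exact hcR'
      rw [← hq, ← hA]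
      rcases Nat.lt_or_ge R (8 * c) with hs | hs
      · -- base case
        have k1 := Ex_cs S (fun F => u ^ U c R F) φ
        have k2 : Ex P2 S (fun F => (u ^ U c R F) ^ 2) ≤ K1 * 8 ^ Psi (u ^ 2) := by
          have e1 : Ex P2 S (fun F => (u ^ U c R F) ^ 2) = Ex P2 S (fun F => (u ^ 2) ^ U c R F) := by
            apply Ex_congr
            intro F _
            rw [← pow_mul, ← pow_mul, mul_comm]
          rw [e1]
          refine (hup2 c R hc hcR S hS).trans ?_
          apply mul_le_mul_of_nonneg_left _ hK1.le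
          apply rpow_le_rpow (by positivity) _ hΨ2
          rw [div_le_iff₀ hcp]
          exact_mod_cast hs.le
        refine k1.trans ?_
        rw [← hq]
        apply mul_le_mul_of_nonneg_right _ hq0
        have k3 := (sqrt_le_sqrt k2).trans hKa
        have : K * 1 ≤ K * A := mul_le_mul_of_nonneg_left hA1 hKp.le
        linarith
      · -- the induction step
        have hc4 : 4 * c ≤ R := by omega
        have ihc : Co u K R (4 * c) := ih (R - 4 * c) (by omega) (4 * c) (by omega) hc4 rfl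
        obtain ⟨N, hN⟩ := lnk_top (v := (0, 0)) hc
        have hA4 : ((R:ℝ) / ((4 * c : ℕ) : ℝ)) ^ Psi u ≤ A := by
          rw [hA]
          apply rpow_le_rpow (by positivity) _ hΨ
          apply div_le_div_of_nonneg_left (by positivity) hcp
          push_cast
          linarith
        have hSa : B R \ B (((4 * c : ℕ) : ℤ) - 1) ⊆ S := by
          intro e he
          obtain ⟨a1, a2⟩ := mem_sdiff.1 he
          apply hS
          rw [mem_sdiff]
          exact ⟨a1, fun h => a2 (B_mono (by push_cast; omega) h)⟩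
        have hSb : B (8 * (c:ℤ)) \ B ((c:ℤ) - 1) ⊆ S := by
          intro e he
          obtain ⟨a1, a2⟩ := mem_sdiff.1 he
          apply hS
          rw [mem_sdiff]
          exact ⟨B_mono (by exact_mod_cast hs) a1, a2⟩
        -- the tail
        have htl : ∀ k, Ex P2 S (fun F => ind (¬ Lnk (0, 0) c k F)) ≤ C * (r ^ 2) ^ k := by
          intro k
          have e1 : ∀ S' : Finset Edg, B (8 * (c:ℤ)) \ B ((c:ℤ) - 1) ⊆ S' →
              Ex P2 S' (fun F => ind (¬ Lnk (0, 0) c k F)) =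
              Ex P2 (B (8 * (c:ℤ)) \ B ((c:ℤ) - 1)) (fun F => ind (¬ Lnk (0, 0) c k F)) := by
            intro S' hS'
            apply Ex_local hS'
            intro F _
            apply ind_congr
            apply not_congr
            apply lnk_congr hc
            intro e h1 h2
            simp only [mem_inter, mem_sdiff]
            exact ⟨fun h3 => ⟨h3, h1, h2⟩, fun h3 => h3.1⟩
          rw [e1 S hSb, ← e1 (B (8 * (c:ℤ))) sdiff_subset]
          exact htail c (0, 0) _ hc le_rfl k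
        have p1 : Ex P2 S (fun F => u ^ U c R F * φ F) ≤
            Ex P2 S (fun F => u ^ (4 + 20 * κ) * (u ^ U (4 * c) R F * φ F) +
              ∑ k ∈ Finset.Ico κ N, u ^ (24 + 20 * k) *
                (u ^ U (4 * c) R F * (ind (¬ Lnk (0, 0) c k F) * φ F))) := by
          apply Ex_mono ok2
          intro F _
          have k1 := ptO (κ := κ) hu hc hs hN F
          calc u ^ U c R F * φ F ≤ (u ^ (4 + 20 * κ) * u ^ U (4 * c) R F +
                ∑ k ∈ Finset.Ico κ N, u ^ (24 + 20 * k) *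
                  (u ^ U (4 * c) R F * ind (¬ Lnk (0, 0) c k F))) * φ F :=
                mul_le_mul_of_nonneg_right k1 (h0 F)
            _ = _ := by
                rw [add_mul, Finset.sum_mul]
                congr 1
                · ring
                · apply Finset.sum_congr rfl
                  intro k _
                  ring
        rw [Ex_add, Ex_sum, Ex_mul_left] at p1
        -- the main term
        have p2 : Ex P2 S (fun F => u ^ U (4 * c) R F * φ F) ≤ K0 * A * q := by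
          have i1 : Ex P2 S (fun F => u ^ U (4 * c) R F * φ F) =
              Ex P2 S (fun F => u ^ U (4 * c) R F) * Ex P2 S φ := by
            refine Ex_mul_indep (S := B R \ B (((4 * c : ℕ) : ℤ) - 1)) (T := S ∩ B (2 * c))
              hSa inter_subset_left ?_ ?_ ?_
            · rw [Finset.disjoint_left]
              intro e he he'
              exact (mem_sdiff.1 he).2 (B_mono (by push_cast; omega) (mem_inter.1 he').2)
            · intro F _
              rw [U_congr hc4 (F := F) (F' := F ∩ (B R \ B (((4 * c : ℕ) : ℤ) - 1)))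
                (fun e h1 h2 => by
                  simp only [mem_inter, mem_sdiff]
                  exact ⟨fun h3 => ⟨h3, h1, h2⟩, fun h3 => h3.1⟩)]
            · intro F hF
              rw [hφ F, hφ (F ∩ (S ∩ B (2 * c)))]
              congr 1
              ext e
              simp only [mem_inter]
              exact ⟨fun h1 => ⟨⟨h1.1, hF h1.1, h1.2⟩, h1.2⟩, fun h1 => ⟨h1.1.1, h1.2⟩⟩
          have i2 := (hup (4 * c) R (by omega) hc4 S hSa).trans
            (mul_le_mul_of_nonneg_left hA4 hK0.le)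
          have i3 : Ex P2 S φ ≤ q := by rw [hq]; exact Ex_le_sqrt S φ
          rw [i1]
          exact mul_le_mul i2 i3 (Ex_nonneg ok2 fun F _ => h0 F) (by positivity)
        -- the other terms
        have p3 : ∀ k ∈ Finset.Ico κ N, Ex P2 S (fun F => u ^ (24 + 20 * k) *
            (u ^ U (4 * c) R F * (ind (¬ Lnk (0, 0) c k F) * φ F))) ≤
            K * (A * q) * (u ^ 24 * √C) * (1 / 2) ^ k := by
          intro k _
          rw [Ex_mul_left]
          have i1 := condO hu hKp.le hc hc4 ihc hS h0 hφ (χ := fun F => ¬ Lnk (0, 0) c k F)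
            (by
              intro F F' hFF
              apply not_congr
              apply lnk_congr hc
              intro e he _
              have h2 := Finset.ext_iff.1 hFF e
              simp only [mem_inter] at h2
              constructor
              · intro h3
                exact (h2.1 ⟨h3, he⟩).1
              · intro h3
                exact (h2.2 ⟨h3, he⟩).1)
          rw [← hq] at i1
          have i2 : √(Ex P2 S (fun F => ind (¬ Lnk (0, 0) c k F))) ≤ √C * r ^ k := by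
            have := Real.sqrt_le_sqrt (htl k)
            rwa [Real.sqrt_mul hC.le, ← pow_mul, mul_comm 2 k, pow_mul, Real.sqrt_sq (by positivity)]
              at this
          calc u ^ (24 + 20 * k) * Ex P2 S (fun F => u ^ U (4 * c) R F *
                (ind (¬ Lnk (0, 0) c k F) * φ F)) ≤
              u ^ (24 + 20 * k) * (K * A * (q * (√C * r ^ k))) := by
                apply mul_le_mul_of_nonneg_left _ (by positivity)
                refine i1.trans ?_
                apply mul_le_mul (mul_le_mul_of_nonneg_left hA4 hKp.le) _ (by positivity)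
                  (by positivity)
                exact mul_le_mul_of_nonneg_left i2 hq0
            _ = K * (A * q) * (u ^ 24 * √C) * ((u ^ 20 * r) ^ k) := by
                rw [pow_add, pow_mul u 20 k, mul_pow]
                ring
            _ = _ := by rw [hr1]
        have p4 := Finset.sum_le_sum p3
        rw [← Finset.mul_sum] at p4
        have p5 : K * (A * q) * (u ^ 24 * √C) * ∑ k ∈ Finset.Ico κ N, (1 / 2 : ℝ) ^ k ≤
            K * (A * q) * (1 / 2) := by
          calc K * (A * q) * (u ^ 24 * √C) * ∑ k ∈ Finset.Ico κ N, (1 / 2 : ℝ) ^ k ≤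
              K * (A * q) * (u ^ 24 * √C) * (2 * (1 / 2) ^ κ) :=
                mul_le_mul_of_nonneg_left (half_sum κ N) (by positivity)
            _ = K * (A * q) * (u ^ 24 * √C * (2 * (1 / 2) ^ κ)) := by ring
            _ ≤ _ := mul_le_mul_of_nonneg_left hκ (by positivity)
        have p6 : u ^ (4 + 20 * κ) * Ex P2 S (fun F => u ^ U (4 * c) R F * φ F) ≤
            K / 2 * (A * q) := by
          calc u ^ (4 + 20 * κ) * Ex P2 S (fun F => u ^ U (4 * c) R F * φ F) ≤
              u ^ (4 + 20 * κ) * (K0 * A * q) := mul_le_mul_of_nonneg_left p2 (by positivity)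
            _ = (u ^ (4 + 20 * κ) * K0) * (A * q) := by ring
            _ ≤ _ := mul_le_mul_of_nonneg_right hKb (by positivity)
        linarith
  intro c hc hcR
  exact main (R - c) c hc hcR rfl

end Pool.Agent.U154.TP
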